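import Pool.Agent.Y951.TU.Fam

/-!
# The central limit theorem for the digit matrices of the multiples of a tuple (helper951)
-/

set_option autoImplicit false

namespace Pool.Agent.Y951.TU

open Finset Real MeasureTheory Filter Topology ProbabilityTheory
open Pool.Agent.Y933.KD (wd Leb box card_box WS mn cv cen cen_le cen_sum sigma2 sigma2_cen WS_cen
  measurable_WS)
open Pool.Agent.Y933.KE (TW clt_TW)

variable {r : ℕ}

/-- the mean of `F` over the tuples of words -/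
noncomputable def mnT (b : Fin r → ℕ) (w : ℕ) (F : (Fin r → ℕ) → ℝ) : ℝ :=
  (∑ c ∈ words b w, F c) / ((∏ j, b j : ℕ) : ℝ) ^ w

/-- the covariance at the distance `h` -/
noncomputable def cvT (b : Fin r → ℕ) (w : ℕ) (F : (Fin r → ℕ) → ℝ) (h : ℕ) : ℝ :=
  (∑ c ∈ words b (w + h), (F (fun j => c j / b j ^ h) - mnT b w F) *
    (F (fun j => c j % b j ^ w) - mnT b w F)) / ((∏ j, b j : ℕ) : ℝ) ^ (w + h)

/-- the function of the mixed words -/
noncomputable def FM (b : Fin r → ℕ) (w : ℕ) (F : (Fin r → ℕ) → ℝ) (a : ℕ) : ℝ :=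
  ∑ W ∈ words b w, if mix b w W = a then F W else 0

lemma FM_mix {b : Fin r → ℕ} (hb : ∀ j, 1 ≤ b j) (w : ℕ) (F : (Fin r → ℕ) → ℝ) {W : Fin r → ℕ}
    (hW : W ∈ words b w) : FM b w F (mix b w W) = F W := by
  unfold FM
  rw [sum_eq_single_of_mem W hW, if_pos rfl]
  intro V hV hne
  rw [if_neg]
  intro h
  exact hne (mix_inj hb w _ _ (mem_words.1 hV) (mem_words.1 hW) h)

lemma mn_FM {b : Fin r → ℕ} (hb : ∀ j, 1 ≤ b j) (w : ℕ) (F : (Fin r → ℕ) → ℝ) :
    mn (∏ j, b j) w (FM b w F) = mnT b w F := by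
  unfold mn mnT
  rw [← sum_words hb w]
  congr 1
  exact sum_congr rfl fun W hW => FM_mix hb w F hW

lemma cv_FM {b : Fin r → ℕ} (hb : ∀ j, 1 ≤ b j) (w : ℕ) (F : (Fin r → ℕ) → ℝ) (h : ℕ) :
    cv (∏ j, b j) w (FM b w F) h = cvT b w F h := by
  unfold cv cvT
  rw [← sum_words hb (w + h), mn_FM hb]
  congr 1
  refine sum_congr rfl fun W hW => ?_
  rw [mem_words] at hW
  have h1 : mix b (w + h) W / (∏ j, b j) ^ h = mix b w (fun j => W j / b j ^ h) := by
    rw [add_comm w h]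
    exact mix_div hb w h W
  have h2 := mix_mod hb h w W
  rw [h1, h2, FM_mix hb, FM_mix hb]
  · exact mem_words.2 fun j => Nat.mod_lt _ (by have := hb j; positivity)
  · refine mem_words.2 fun j => ?_
    have h3 := hW j
    rw [pow_add] at h3
    exact Nat.div_lt_of_lt_mul (by rw [mul_comm]; exact h3)

/-- the laws -/
noncomputable def PT {d : ℕ} (Ω : Fin r → Fin d → ℝ) (b : Fin r → ℕ) (y : ℕ → Fin r → ℝ)
    (s : ℕ → Fin r → ℕ) (J : ℕ → ℕ) (M : ℕ) : Measure ℝ :=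
  if 1 ≤ M then (unif (box d M) (comb Ω (y M))).map (Psi b (J M) (s M)) else Leb

lemma PT_prob {d : ℕ} (Ω : Fin r → Fin d → ℝ) (b : Fin r → ℕ) (y : ℕ → Fin r → ℝ)
    (s : ℕ → Fin r → ℕ) (J : ℕ → ℕ) (M : ℕ) : IsProbabilityMeasure (PT Ω b y s J M) := by
  unfold PT
  split_ifs with h
  · have := SM_prob Ω M h (unif (box d M) (comb Ω (y M))) ⟨y M, rfl⟩
    exact Measure.isProbabilityMeasure_map (measurable_Psi b _ _).aemeasurable
  · infer_instance

theorem clt_tuple {d : ℕ} (Ω : Fin r → Fin d → ℝ)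
    (halg : ∀ j t, IsAlgebraic ℚ (Ω j t))
    (hind : ∀ c : Fin r → ℤ, c ≠ 0 → ∃ t, Irrational (∑ j, c j * Ω j t)) {b : Fin r → ℕ}
    (hb : ∀ j, 1 ≤ b j) {w : ℕ} (hw : 1 ≤ w) (F : (Fin r → ℕ) → ℝ)
    (hF : 0 < cvT b w F 0 + 2 * ∑ h ∈ Finset.Ico 1 w, cvT b w F h) (A : ℝ)
    (y : ℕ → Fin r → ℝ) (s : ℕ → Fin r → ℕ) (N : ℕ → ℕ) (hr : 1 ≤ r) (hN : Tendsto N atTop atTop)
    (hsN : ∀ᶠ M : ℕ in atTop, ∀ j, (s M j : ℝ) + N M ≤ A * log M) (a : ℝ) :
    Tendsto (fun M : ℕ => (((box d M).filter (fun m =>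
      ∑ i ∈ range (N M), F (tw b w (fun j => s M j + i) (comb Ω (y M) m)) - N M * mnT b w F ≤
        a * √((cvT b w F 0 + 2 * ∑ h ∈ Finset.Ico 1 w, cvT b w F h) * N M))).card : ℝ) /
        (M : ℝ) ^ d) atTop
      (𝓝 ((gaussianReal 0 1).real (Set.Iic a))) := by
  classical
  have hq : 1 ≤ ∏ j, b j := prod_pos' hb
  set J : ℕ → ℕ := fun M => ⌈(A + 1) * log (M : ℝ)⌉₊ with hJ
  have hsig : sigma2 (∏ j, b j) w (cen (∏ j, b j) w (FM b w F)) =
      cvT b w F 0 + 2 * ∑ h ∈ Finset.Ico 1 w, cvT b w F h := by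
    rw [sigma2_cen hq]
    simp only [cv_FM hb]
  have hprob : ∀ M, IsProbabilityMeasure (PT Ω b y s J M) := PT_prob Ω b y s J
  have key := clt_TW (G := cen (∏ j, b j) w (FM b w F)) hq hw (cen_le _ w _) (cen_sum hq _)
    (by rw [hsig]; exact hF) (SX_prob Ω b A (A + 1))
    (fun k => TW_SX Ω halg hind hb A (A + 1) k) (PT Ω b y s J) (by
      filter_upwards [hsN, eventually_ge_atTop 1] with M hM hM1
      unfold PT
      rw [if_pos hM1]
      exact ⟨_, ⟨y M, rfl⟩, s M, J M, fun j => by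
        have h1 := hM j
        have h2 : (0 : ℝ) ≤ N M := Nat.cast_nonneg _
        linarith, Nat.le_ceil _, rfl⟩) (fun _ => 0) N hN (by
      filter_upwards [hsN] with M hM
      have h1 := hM ⟨0, hr⟩
      have h2 : (0 : ℝ) ≤ s M ⟨0, hr⟩ := Nat.cast_nonneg _
      push_cast
      linarith) a
  refine key.congr' ?_
  have hlog : Tendsto (fun M : ℕ => log (M : ℝ)) atTop atTop :=
    Real.tendsto_log_atTop.comp tendsto_natCast_atTop_atTop
  filter_upwards [hsN, eventually_ge_atTop 1, hlog.eventually_ge_atTop (w : ℝ)] with M hM hM1 hMw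
  have hmeas : MeasurableSet {z | WS (∏ j, b j) w (cen (∏ j, b j) w (FM b w F)) 0 (N M) z ≤
      a * √(sigma2 (∏ j, b j) w (cen (∏ j, b j) w (FM b w F)) * N M)} :=
    measurableSet_le (measurable_WS _ _ _ _ _) measurable_const
  unfold PT
  rw [if_pos hM1, map_measureReal_apply (measurable_Psi b _ _) hmeas,
    real_unif _ _ (measurable_Psi b _ _ hmeas), card_box]
  push_cast
  congr 2
  apply congrArg Finset.card
  refine filter_congr fun m _ => ?_
  simp only [Set.mem_preimage, Set.mem_ofPred_eq]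
  rw [WS_cen hq, hsig, mn_FM hb]
  have h3 : ∑ i ∈ range (N M), FM b w F (wd (∏ j, b j) w (0 + i) (Psi b (J M) (s M)
      (comb Ω (y M) m))) = ∑ i ∈ range (N M), F (tw b w (fun j => s M j + i)
        (comb Ω (y M) m)) := by
    refine sum_congr rfl fun i hi => ?_
    rw [mem_range] at hi
    have h4 : i + w ≤ J M := by
      have h5 : ((i + w : ℕ) : ℝ) ≤ J M := by
        push_cast
        have h6 : (i : ℝ) ≤ N M := by exact_mod_cast hi.le
        have h7 := hM ⟨0, hr⟩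
        have h8 : (0 : ℝ) ≤ s M ⟨0, hr⟩ := Nat.cast_nonneg _
        calc (i : ℝ) + w ≤ A * log M + log M := by linarith
          _ = (A + 1) * log M := by ring
          _ ≤ J M := Nat.le_ceil _
      exact_mod_cast h5
    rw [zero_add, wd_Psi hb h4, FM_mix hb]
    exact mem_words.2 (tw_lt hb _ _ _)
  rw [h3]

end Pool.Agent.Y951.TU
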