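import Mathlib
import Pool.Agent.TH419.WI.ArithF

/-!
# The diophantine input for integral linear forms in several algebraic numbers (helper951)

Irrational sums of `k` terms `h s (c . α)` with smooth `s`, and with integers `h` and integer vectors
`c` up to a small exponential, are not very close to integers.
-/

set_option autoImplicit false

open Finset Filter Topology

namespace Pool.Agent.Y951.TU

open Pool.Agent.TH419.WI

theorem dioph {r : ℕ} (α : Fin r → ℝ) (halg : ∀ j, IsAlgebraic ℚ (α j)) (S : Finset ℕ)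
    (hS : ∀ p ∈ S, 0 < p) (k : ℕ) (A δ : ℝ) (hA0 : 0 ≤ A) (hδ : 0 < δ) :
    ∃ η : ℝ, 0 < η ∧ ∃ L0 : ℝ, ∀ L : ℝ, L0 ≤ L → ∀ (s : Fin k → ℕ) (c : Fin k → Fin r → ℤ)
      (h : Fin k → ℤ) (P : ℤ), (∀ i, Smooth S (s i)) → (∀ i, (s i : ℝ) ≤ Real.exp (A * L)) →
      (∀ i, |(h i : ℝ)| ≤ Real.exp (η * L)) → (∀ i j, |(c i j : ℝ)| ≤ Real.exp (η * L)) →
      Irrational (∑ j, ((∑ i, h i * (s i * c i j) : ℤ) : ℝ) * α j) →
      Real.exp (-(δ * L)) < |∑ j, ((∑ i, h i * (s i * c i j) : ℤ) : ℝ) * α j - P| := by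
  by_contra hcon
  push Not at hcon
  have hpos : ∀ j : ℕ, (0 : ℝ) < 1 / ((j : ℝ) + 1) := fun j => by positivity
  choose L hL s c h P h1 h2 h3 h3' h4 h5 using fun j : ℕ => hcon (1 / ((j : ℝ) + 1)) (hpos j) j
  have hLt : Tendsto L atTop atTop := tendsto_atTop_mono hL tendsto_natCast_atTop_atTop
  obtain ⟨O, d, hd, hfin, hA⟩ := exists_order α halg
  have hdR : (d : ℝ) ≠ 0 := by exact_mod_cast hd
  let ρ : O →+* ℝ := O.val.toRingHom
  have hρ : ∀ x : O, ρ x = (x : ℝ) := fun x => rfl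
  have hsum : ∀ t, ∑ p : Fin (k * r), ρ (⟨(d : ℝ) * α (finProdFinEquiv.symm p).2, hA _⟩ : O) *
      ((mon (gens S) (expo S (s t (finProdFinEquiv.symm p).1)) *
        (h t (finProdFinEquiv.symm p).1 * c t (finProdFinEquiv.symm p).1
          (finProdFinEquiv.symm p).2) : ℤ) : ℝ) =
      (d : ℝ) * ∑ j, ((∑ i, h t i * (s t i * c t i j) : ℤ) : ℝ) * α j := by
    intro t
    have e1 := Equiv.sum_comp (finProdFinEquiv (m := k) (n := r)).symm
      (fun q : Fin k × Fin r => ρ (⟨(d : ℝ) * α q.2, hA _⟩ : O) *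
      ((mon (gens S) (expo S (s t q.1)) * (h t q.1 * c t q.1 q.2) : ℤ) : ℝ))
    rw [e1, Fintype.sum_prod_type, Finset.sum_comm, Finset.mul_sum]
    refine Finset.sum_congr rfl fun j _ => ?_
    push_cast
    rw [Finset.sum_mul, Finset.mul_sum]
    refine Finset.sum_congr rfl fun i _ => ?_
    rw [hρ]
    have e2 : ((mon (gens S) (expo S (s t i)) : ℤ) : ℝ) = (s t i : ℝ) := by
      rw [mon_expo (h1 t i)]
      push_cast
      rfl
    rw [e2]
    ring
  have hgpos : ∀ v, 0 < gens S v := fun v => hS _ (gens_mem S v)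
  refine claim O ρ (g := gens S) hgpos hA0 (k * r)
    (fun p => (⟨(d : ℝ) * α (finProdFinEquiv.symm p).2, hA _⟩ : O)) (δ / 2) (by positivity) L hLt
    (fun _ => 0) (fun t p => expo S (s t (finProdFinEquiv.symm p).1))
    (fun t p => h t (finProdFinEquiv.symm p).1 * c t (finProdFinEquiv.symm p).1
          (finProdFinEquiv.symm p).2) (fun t => d * P t) ?_ ?_ ?_ ?_ ?_ ?_
  · filter_upwards [hLt.eventually_ge_atTop 0] with j hj
    rw [mon_zero]
    push_cast
    exact Real.one_le_exp (mul_nonneg hA0 hj)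
  · refine Eventually.of_forall fun t p => ?_
    rw [mon_zero, mon_expo (h1 t _)]
    have := Nat.pos_of_ne_zero (h1 t (finProdFinEquiv.symm p).1).1
    exact_mod_cast this
  · refine Eventually.of_forall fun t p => ?_
    rw [mon_expo (h1 t _)]
    push_cast
    exact h2 t _
  · intro ε hε
    have h6 : Tendsto (fun j : ℕ => 1 / ((j : ℝ) + 1)) atTop (𝓝 0) :=
      tendsto_one_div_add_atTop_nhds_zero_nat
    filter_upwards [hLt.eventually_ge_atTop 0, h6.eventually_le_const (half_pos hε)] with t hj hj2 p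
    push_cast
    rw [abs_mul]
    calc |(h t (finProdFinEquiv.symm p).1 : ℝ)| *
          |(c t (finProdFinEquiv.symm p).1 (finProdFinEquiv.symm p).2 : ℝ)|
        ≤ Real.exp (1 / ((t : ℝ) + 1) * L t) * Real.exp (1 / ((t : ℝ) + 1) * L t) :=
          mul_le_mul (h3 t _) (h3' t _ _) (abs_nonneg _) (Real.exp_pos _).le
      _ = Real.exp (1 / ((t : ℝ) + 1) * L t + 1 / ((t : ℝ) + 1) * L t) := (Real.exp_add _ _).symm
      _ ≤ Real.exp (ε * L t) := by
          apply Real.exp_le_exp.2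
          have : 1 / ((t : ℝ) + 1) * L t ≤ ε / 2 * L t := mul_le_mul_of_nonneg_right hj2 hj
          linarith
  · refine Eventually.of_forall fun t => ?_
    rw [hsum t, irrational_intCast_mul_iff]
    exact ⟨hd, h4 t⟩
  · filter_upwards [ev_const_le hLt |(d : ℝ)| (δ / 2) (by positivity)] with t h6
    rw [hsum t, mon_zero, one_mul]
    push_cast
    rw [← mul_sub, abs_mul, one_mul]
    have h7 := h5 t
    push_cast at h7
    calc |(d : ℝ)| * |∑ j, (∑ i, (h t i : ℝ) * ((s t i : ℝ) * (c t i j : ℝ))) * α j - (P t : ℝ)|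
        ≤ Real.exp (δ / 2 * L t) * Real.exp (-(δ * L t)) :=
          mul_le_mul h6 h7 (abs_nonneg _) (Real.exp_pos _).le
      _ = Real.exp (-(δ / 2 * L t)) := by
          rw [← Real.exp_add]; congr 1; ring

end Pool.Agent.Y951.TU
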