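import Pool.Agent.Y951.TU.Mix

/-!
# The mixed digits of the multiples of a tuple (helper951)
-/

set_option autoImplicit false

namespace Pool.Agent.Y951.TU

open Finset Real MeasureTheory
open Pool.Agent.Y933.KD (wd wd_lt wd_eq_iff Leb int_word measurable_wd Tb wd_add Tb_mem)
open Pool.Agent.Y933.KE (WE wd_floor Leb_WE wd_smear TW WE_empty measurableSet_WE)
open Pool.Agent.TH419.WI (Smooth)

variable {r : ℕ}

/-- the real number with the mixed digits -/
noncomputable def Psi (b : Fin r → ℕ) (J : ℕ) (s : Fin r → ℕ) (x : Fin r → ℝ) : ℝ :=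
  (mix b J (tw b J s x) : ℝ) / ((∏ j, b j : ℕ) : ℝ) ^ J

lemma measurable_tw (b : Fin r → ℕ) (w : ℕ) (s : Fin r → ℕ) : Measurable (tw b w s) := by
  unfold tw
  exact measurable_pi_lambda _ fun j => (measurable_wd _ _ _).comp (measurable_pi_apply j)

lemma measurable_Psi (b : Fin r → ℕ) (J : ℕ) (s : Fin r → ℕ) : Measurable (Psi b J s) := by
  have h1 : Measurable fun W : Fin r → ℕ => (mix b J W : ℝ) / ((∏ j, b j : ℕ) : ℝ) ^ J :=
    measurable_of_countable _
  exact h1.comp (measurable_tw b J s)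

lemma wd_Psi {b : Fin r → ℕ} (hb : ∀ j, 1 ≤ b j) {n w J : ℕ} (h : n + w ≤ J) (s : Fin r → ℕ)
    (x : Fin r → ℝ) : wd (∏ j, b j) w n (Psi b J s x) = mix b w (tw b w (fun j => s j + n) x) := by
  have hq : 1 ≤ ∏ j, b j := prod_pos' hb
  have h1 := wd_smear hq h (mix b J (tw b J s x)) (θ := 0) (by simp)
  rw [add_zero] at h1
  unfold Psi
  rw [h1, mix_tw hb h]

/-- the measures on the line -/
def SX {d : ℕ} (Ω : Fin r → Fin d → ℝ) (b : Fin r → ℕ) (A0 A1 : ℝ) (M : ℕ) : Set (Measure ℝ) :=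
  {P' | ∃ P ∈ SM Ω M, ∃ (s : Fin r → ℕ) (J : ℕ), (∀ j, (s j : ℝ) ≤ A0 * log M) ∧
    A1 * log M ≤ J ∧ P' = P.map (Psi b J s)}

lemma SX_prob {d : ℕ} (Ω : Fin r → Fin d → ℝ) (b : Fin r → ℕ) (A0 A1 : ℝ) (M : ℕ) (hM : 1 ≤ M)
    (P' : Measure ℝ) (hP : P' ∈ SX Ω b A0 A1 M) : IsProbabilityMeasure P' := by
  obtain ⟨P, hP, s, J, _, _, rfl⟩ := hP
  have := SM_prob Ω M hM P hP
  exact Measure.isProbabilityMeasure_map (measurable_Psi b J s).aemeasurable

/-- the tests -/
def tq {k : ℕ} (b : Fin r → ℕ) (s : Fin r → ℕ) (n : Fin k → ℕ) : Fin (k * r) → Fin r → ℤ :=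
  fun p j' => ((b (finProdFinEquiv.symm p).2 ^ (s (finProdFinEquiv.symm p).2 +
    n (finProdFinEquiv.symm p).1) : ℕ) : ℤ) * (Pi.single (finProdFinEquiv.symm p).2 1 : Fin r → ℤ) j'

lemma lin_tq {k : ℕ} (b : Fin r → ℕ) (s : Fin r → ℕ) (n : Fin k → ℕ) (p : Fin (k * r))
    (x : Fin r → ℝ) : lin r (tq b s n p) x =
      (b (finProdFinEquiv.symm p).2 : ℝ) ^ (s (finProdFinEquiv.symm p).2 +
    n (finProdFinEquiv.symm p).1) * x (finProdFinEquiv.symm p).2 := by
  rw [lin_apply]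
  unfold tq
  rw [sum_eq_single (finProdFinEquiv.symm p).2]
  · simp
  · intro j _ hj
    rw [Pi.single_eq_of_ne hj]
    simp
  · intro h
    exact absurd (mem_univ _) h

lemma Ev_tq {b : Fin r → ℕ} (hb : ∀ j, 1 ≤ b j) {k : ℕ} (s : Fin r → ℕ) (n w : Fin k → ℕ)
    (C : Fin k → Fin r → ℕ) :
    {x | ∀ i, tw b (w i) (fun j => s j + n i) x = C i} =
      Ev (lin r) (tq b s n)
        (fun p => (C (finProdFinEquiv.symm p).1 (finProdFinEquiv.symm p).2 : ℝ) /
          (b (finProdFinEquiv.symm p).2 : ℝ) ^ w (finProdFinEquiv.symm p).1)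
        (fun p => ((C (finProdFinEquiv.symm p).1 (finProdFinEquiv.symm p).2 : ℝ) + 1) /
          (b (finProdFinEquiv.symm p).2 : ℝ) ^ w (finProdFinEquiv.symm p).1) := by
  ext x
  unfold Ev
  simp only [Set.mem_ofPred_eq, lin_tq]
  constructor
  · intro h p
    have h1 := congrFun (h (finProdFinEquiv.symm p).1) (finProdFinEquiv.symm p).2
    exact (wd_eq_iff (hb _) _).1 h1
  · intro h i
    funext j
    have h1 := h (finProdFinEquiv (i, j))
    simp only [Equiv.symm_apply_apply] at h1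
    exact (wd_eq_iff (hb _) _).2 h1

theorem TW_SX {d : ℕ} (Ω : Fin r → Fin d → ℝ) (halg : ∀ j t, IsAlgebraic ℚ (Ω j t))
    (hind : ∀ c : Fin r → ℤ, c ≠ 0 → ∃ t, Irrational (∑ j, c j * Ω j t)) {b : Fin r → ℕ}
    (hb : ∀ j, 1 ≤ b j) (A0 A1 : ℝ) (k : ℕ) : TW (∏ j, b j) k A1 (SX Ω b A0 A1) := by
  obtain ⟨B, hB⟩ := exists_ge (fun j => (b j : ℝ))
  set B1 : ℝ := max B 1 with hB1
  have hB1' : 1 ≤ B1 := le_max_right _ _
  have hbB : ∀ j, (b j : ℝ) ≤ B1 := fun j => (hB j).trans (le_max_left _ _)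
  obtain ⟨δ, hδ, C, hC⟩ := tests Ω halg hind (Finset.univ.biUnion fun j => (b j).primeFactors)
    (fun p hp => by
      rw [mem_biUnion] at hp
      obtain ⟨j, _, hj⟩ := hp
      exact (Nat.prime_of_mem_primeFactors hj).pos) (k * r) ((|A0| + |A1|) * log B1)
  refine ⟨δ, hδ, |C|, fun M hM P' hP' n w c hn => ?_⟩
  obtain ⟨P, hP, s, J, hs, hJ, rfl⟩ := hP'
  have := SM_prob Ω M hM P hP
  have hprob := Measure.isProbabilityMeasure_map (μ := P) (measurable_Psi b J s).aemeasurable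
  have hq : 1 ≤ ∏ j, b j := prod_pos' hb
  have hMR : (1 : ℝ) ≤ M := by exact_mod_cast hM
  have hMp : (0 : ℝ) < M := by linarith
  have hlog0 : 0 ≤ log (M : ℝ) := Real.log_nonneg hMR
  have hM0 : 0 ≤ (M : ℝ) ^ (-δ) := by positivity
  have hnJ : ∀ i, n i + w i ≤ J := fun i => by
    have := (hn i).trans hJ
    exact_mod_cast this
  by_cases hc : ∃ i, (∏ j, b j) ^ w i ≤ c i
  · obtain ⟨i, hi⟩ := hc
    rw [WE_empty hq hi, measureReal_empty, measureReal_empty, sub_self, abs_zero]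
    positivity
  push Not at hc
  choose V hV hV2 using fun i => mix_surj hb (w i) (c i) (hc i)
  rw [← Cube_WE hb s n w c, map_measureReal_apply (measurable_Psi b J s) (measurableSet_WE _ _ _ _)]
  have h1 : Psi b J s ⁻¹' WE (∏ j, b j) n w c =
      {x | ∀ i, mix b (w i) (tw b (w i) (fun j => s j + n i) x) = c i} := by
    ext x
    unfold WE
    simp only [Set.mem_preimage, Set.mem_ofPred_eq]
    exact forall_congr' fun i => by rw [wd_Psi hb (hnJ i)]
  have h2 : {x : Fin r → ℝ | ∀ i, mix b (w i) (tw b (w i) (fun j => s j + n i) x) = c i} =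
      {x | ∀ i, tw b (w i) (fun j => s j + n i) x = V i} := by
    ext x
    simp only [Set.mem_ofPred_eq]
    refine forall_congr' fun i => ?_
    rw [← hV2 i]
    constructor
    · intro h
      exact mix_inj hb (w i) _ _ (tw_lt hb _ _ _) (hV i) h
    · intro h
      rw [h]
  rw [h1, h2, Ev_tq hb]
  refine (hC M hM P hP _ (fun p => ?_) _ _ (fun p => by positivity) (fun p => ?_)).trans ?_
  · refine ⟨b (finProdFinEquiv.symm p).2 ^ (s (finProdFinEquiv.symm p).2 +
      n (finProdFinEquiv.symm p).1), Pi.single (finProdFinEquiv.symm p).2 1, ⟨?_, ?_⟩, ?_, ?_, ?_,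
      rfl⟩
    · exact pow_ne_zero _ (Nat.pos_iff_ne_zero.1 (hb _))
    · intro p' hp'
      rw [mem_biUnion]
      refine ⟨(finProdFinEquiv.symm p).2, mem_univ _, ?_⟩
      rw [Nat.mem_primeFactors] at hp' ⊢
      exact ⟨hp'.1, hp'.1.dvd_of_dvd_pow hp'.2.1, Nat.pos_iff_ne_zero.1 (hb _)⟩
    · set j := (finProdFinEquiv.symm p).2
      set i := (finProdFinEquiv.symm p).1
      have hbj : (1 : ℝ) ≤ b j := by exact_mod_cast hb j
      have h3 : ((s j + n i : ℕ) : ℝ) ≤ (|A0| + |A1|) * log M := by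
        push_cast
        have h4 : (s j : ℝ) ≤ |A0| * log M := (hs j).trans (by gcongr; exact le_abs_self _)
        have h5 : (n i : ℝ) ≤ |A1| * log M := by
          have h6 := hn i
          have h7 : (0 : ℝ) ≤ w i := Nat.cast_nonneg _
          calc (n i : ℝ) ≤ A1 * log M := by linarith
            _ ≤ |A1| * log M := by gcongr; exact le_abs_self _
        linarith
      push_cast
      calc (b j : ℝ) ^ (s j + n i) ≤ B1 ^ (s j + n i) := by gcongr; exact hbB j
        _ = B1 ^ ((s j + n i : ℕ) : ℝ) := (Real.rpow_natCast _ _).symm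
        _ ≤ B1 ^ ((|A0| + |A1|) * log M) := Real.rpow_le_rpow_of_exponent_le hB1' h3
        _ = (M : ℝ) ^ ((|A0| + |A1|) * log B1) := by
            rw [Real.rpow_def_of_pos (by linarith), Real.rpow_def_of_pos hMp]
            congr 1
            ring
    · intro h
      have := congrFun h (finProdFinEquiv.symm p).2
      simp at this
    · intro j
      have h3 : (1 : ℝ) ≤ (M : ℝ) ^ δ := Real.one_le_rpow hMR hδ.le
      by_cases hj : j = (finProdFinEquiv.symm p).2
      · rw [hj, Pi.single_eq_same]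
        simpa using h3
      · rw [Pi.single_eq_of_ne hj]
        simp only [Int.cast_zero, abs_zero]
        linarith
  · have hbj : (0 : ℝ) < b (finProdFinEquiv.symm p).2 := by
      exact_mod_cast hb (finProdFinEquiv.symm p).2
    rw [div_le_one (by positivity)]
    exact_mod_cast hV (finProdFinEquiv.symm p).1 (finProdFinEquiv.symm p).2
  · exact mul_le_mul_of_nonneg_right (le_abs_self C) (by positivity)

end Pool.Agent.Y951.TU
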