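import Pool.Agent.Y951.TU.Power
import Pool.Agent.Y951.TU.Dioph
import Pool.Agent.Y933.KD.Unif

/-!
# Joint digit tests for systems of integral linear forms with algebraic coefficients (helper951)
-/

set_option autoImplicit false

namespace Pool.Agent.Y951.TU

open Finset Real MeasureTheory
open Pool.Agent.Y933.KD (e e_zero e_add norm_e e_sum Leb hat_Leb box card_box sum_e_le continuous_e)
open Pool.Agent.TH419.WI (Smooth)
open scoped ENNReal

/-- the linear forms -/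
noncomputable def lin (r : ℕ) : (Fin r → ℤ) →+ ((Fin r → ℝ) → ℝ) where
  toFun l := fun x => ∑ j, l j * x j
  map_zero' := by funext x; simp
  map_add' l l' := by
    funext x
    simp only [Pi.add_apply]
    rw [← sum_add_distrib]
    refine sum_congr rfl fun j _ => ?_
    push_cast
    ring

lemma lin_apply {r : ℕ} (l : Fin r → ℤ) (x : Fin r → ℝ) : lin r l x = ∑ j, l j * x j := rfl

lemma measurable_lin {r : ℕ} (l : Fin r → ℤ) : Measurable (lin r l) := by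
  have : lin r l = fun x : Fin r → ℝ => ∑ j, (l j : ℝ) * x j := rfl
  rw [this]
  fun_prop

/-- Lebesgue measure on the unit cube -/
noncomputable def Cube (r : ℕ) : Measure (Fin r → ℝ) := Measure.pi fun _ => Leb

instance (r : ℕ) : IsProbabilityMeasure (Cube r) := by unfold Cube; infer_instance

lemma hat_Cube {r : ℕ} (l : Fin r → ℤ) (hl : l ≠ 0) : hat (lin r) (Cube r) l = 0 := by
  obtain ⟨j0, hj0⟩ : ∃ j, l j ≠ 0 := by
    by_contra hcon
    push Not at hcon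
    exact hl (funext hcon)
  unfold hat Cube
  have h1 : ∀ x : Fin r → ℝ, e (lin r l x) = ∏ j, e (l j * x j) := fun x => by
    rw [lin_apply, e_sum]
  simp only [h1]
  rw [integral_fintype_prod_eq_prod (fun j (t : ℝ) => e (l j * t))]
  exact prod_eq_zero (mem_univ j0) (hat_Leb _ hj0)

/-- the uniform probability measure on the family `x m`, `m ∈ s` -/
noncomputable def unif {ι : Type*} {r : ℕ} (s : Finset ι) (x : ι → Fin r → ℝ) :
    Measure (Fin r → ℝ) := (s.card : ℝ≥0∞)⁻¹ • ∑ m ∈ s, Measure.dirac (x m)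

lemma unif_prob {ι : Type*} {r : ℕ} {s : Finset ι} (hs : s.Nonempty) (x : ι → Fin r → ℝ) :
    IsProbabilityMeasure (unif s x) := by
  refine ⟨?_⟩
  unfold unif
  rw [Measure.smul_apply, Measure.finsetSum_apply]
  simp only [measure_univ, sum_const, smul_eq_mul, nsmul_eq_mul, mul_one]
  refine ENNReal.inv_mul_cancel ?_ (ENNReal.natCast_ne_top _)
  exact_mod_cast (Finset.card_pos.2 hs).ne'

lemma integral_unif {ι : Type*} {r : ℕ} (s : Finset ι) (x : ι → Fin r → ℝ) (f : (Fin r → ℝ) → ℂ) :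
    ∫ t, f t ∂(unif s x) = (1 / s.card) * ∑ m ∈ s, f (x m) := by
  unfold unif
  rw [integral_smul_measure, integral_finsetSum_measure]
  · simp only [integral_dirac, ENNReal.toReal_inv, ENNReal.toReal_natCast]
    rw [Complex.real_smul]
    push_cast
    rw [one_div]
  · intro m _
    exact integrable_dirac (by simp)

lemma real_unif {ι : Type*} {r : ℕ} (s : Finset ι) (x : ι → Fin r → ℝ) {E : Set (Fin r → ℝ)}
    [DecidablePred fun m => x m ∈ E] (hE : MeasurableSet E) :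
    (unif s x).real E = (s.filter (fun m => x m ∈ E)).card / s.card := by
  classical
  unfold unif Measure.real
  rw [Measure.smul_apply, Measure.finsetSum_apply]
  simp only [Measure.dirac_apply' _ hE, smul_eq_mul, ENNReal.toReal_mul, ENNReal.toReal_inv,
    ENNReal.toReal_natCast]
  have h1 : ∑ m ∈ s, E.indicator (1 : (Fin r → ℝ) → ℝ≥0∞) (x m) =
      (s.filter (fun m => x m ∈ E)).card := by
    rw [card_filter]
    push_cast
    refine sum_congr rfl fun m _ => ?_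
    by_cases h : x m ∈ E
    · rw [Set.indicator_of_mem h, if_pos h]; rfl
    · rw [Set.indicator_of_notMem h, if_neg h]
  rw [h1, ENNReal.toReal_natCast, div_eq_inv_mul]

/-- the vectors `Ω m + y` -/
noncomputable def comb {r d : ℕ} (Ω : Fin r → Fin d → ℝ) (y : Fin r → ℝ) (m : Fin d → ℕ) :
    Fin r → ℝ := fun j => ∑ t, m t * Ω j t + y j

lemma hat_comb {r d M : ℕ} (hM : 1 ≤ M) (Ω : Fin r → Fin d → ℝ) (y : Fin r → ℝ) (l : Fin r → ℤ)
    (t0 : Fin d) {ε : ℝ} (hε : 0 < ε) (h : ∀ P : ℤ, ε ≤ |∑ j, l j * Ω j t0 - P|) :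
    ‖hat (lin r) (unif (box d M) (comb Ω y)) l‖ ≤ 1 / (M * (2 * ε)) := by
  have hMR : (0 : ℝ) < M := by exact_mod_cast hM
  unfold hat
  rw [integral_unif, card_box]
  have h1 : ∑ m ∈ box d M, e (lin r l (comb Ω y m)) =
      e (∑ j, l j * y j) * ∏ t, ∑ a ∈ Finset.Icc 1 M, e (a * (∑ j, l j * Ω j t)) := by
    unfold Pool.Agent.Y933.KD.box comb
    rw [prod_univ_sum, mul_sum]
    refine sum_congr rfl fun m _ => ?_
    rw [← e_sum, ← e_add, lin_apply]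
    congr 1
    have h2 : ∑ j, (l j : ℝ) * (∑ t, (m t : ℝ) * Ω j t + y j) =
        ∑ j, (l j : ℝ) * y j + ∑ j, ∑ t, (m t : ℝ) * ((l j : ℝ) * Ω j t) := by
      rw [← sum_add_distrib]
      refine sum_congr rfl fun j _ => ?_
      rw [mul_add, mul_sum, add_comm]
      congr 1
      refine sum_congr rfl fun t _ => ?_
      ring
    rw [h2, sum_comm]
    congr 1
    refine sum_congr rfl fun t _ => ?_
    rw [mul_sum]
  rw [h1, norm_mul, norm_mul, norm_e, one_mul, norm_prod]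
  have h2 : ‖(1 / ((M ^ d : ℕ) : ℂ))‖ = 1 / (M : ℝ) ^ d := by
    push_cast
    simp
  rw [h2, ← Finset.mul_prod_erase univ _ (mem_univ t0)]
  have h3 : ∏ t ∈ univ.erase t0, ‖∑ a ∈ Finset.Icc 1 M, e (a * (∑ j, l j * Ω j t))‖ ≤
      (M : ℝ) ^ (d - 1) := by
    calc _ ≤ ∏ _t ∈ univ.erase t0, (M : ℝ) := by
          refine prod_le_prod (fun j _ => norm_nonneg _) fun j _ => ?_
          refine (norm_sum_le _ _).trans ?_
          simp [norm_e]
      _ = (M : ℝ) ^ (d - 1) := by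
          rw [prod_const, card_erase_of_mem (mem_univ _), card_univ, Fintype.card_fin]
  have h4 := sum_e_le M hε h
  have hd : 0 < d := Nat.pos_of_ne_zero (by rintro rfl; exact t0.elim0)
  calc 1 / (M : ℝ) ^ d * (‖∑ a ∈ Finset.Icc 1 M, e (a * (∑ j, l j * Ω j t0))‖ *
        ∏ t ∈ univ.erase t0, ‖∑ a ∈ Finset.Icc 1 M, e (a * (∑ j, l j * Ω j t))‖)
      ≤ 1 / (M : ℝ) ^ d * (1 / (2 * ε) * (M : ℝ) ^ (d - 1)) := by gcongr
    _ = 1 / (M * (2 * ε)) := by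
        obtain ⟨d', rfl⟩ : ∃ d', d = d' + 1 := ⟨d - 1, by omega⟩
        rw [Nat.add_sub_cancel, pow_succ]
        field_simp

/-- the measures of the problem: all shifts -/
def SM {r d : ℕ} (Ω : Fin r → Fin d → ℝ) (M : ℕ) : Set (Measure (Fin r → ℝ)) :=
  {P | ∃ y : Fin r → ℝ, P = unif (box d M) (comb Ω y)}

lemma SM_prob {r d : ℕ} (Ω : Fin r → Fin d → ℝ) (M : ℕ) (hM : 1 ≤ M) (P : Measure (Fin r → ℝ))
    (hP : P ∈ SM Ω M) : IsProbabilityMeasure P := by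
  obtain ⟨y, rfl⟩ := hP
  refine unif_prob ?_ _
  rw [← Finset.card_pos, card_box]
  positivity

/-- the frequencies `s c` with smooth `s ≤ M ^ A` and nonzero `c`, `|c j| ≤ M ^ η` -/
def Fr (r : ℕ) (S : Finset ℕ) (A η : ℝ) (M : ℕ) : Set (Fin r → ℤ) :=
  {q | ∃ (s : ℕ) (c : Fin r → ℤ), Smooth S s ∧ (s : ℝ) ≤ (M : ℝ) ^ A ∧ c ≠ 0 ∧
    (∀ j, |(c j : ℝ)| ≤ (M : ℝ) ^ η) ∧ q = fun j => s * c j}

lemma Fr_ne {r : ℕ} {S : Finset ℕ} {A η : ℝ} (M : ℕ) (q : Fin r → ℤ) (hq : q ∈ Fr r S A η M)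
    (h : ℤ) (hh : h ≠ 0) : h • q ≠ 0 := by
  obtain ⟨s, c, hs, _, hc, _, rfl⟩ := hq
  intro h0
  apply hc
  funext j
  have h1 := congrFun h0 j
  simp only [Pi.smul_apply, smul_eq_mul, Pi.zero_apply] at h1
  have h2 : (s : ℤ) ≠ 0 := by exact_mod_cast hs.1
  rcases mul_eq_zero.1 h1 with h3 | h3
  · exact absurd h3 hh
  · exact (mul_eq_zero.1 h3).resolve_left h2

lemma exists_pos_le {d : ℕ} (η : Fin d → ℝ) (h : ∀ t, 0 < η t) : ∃ η0 : ℝ, 0 < η0 ∧
    ∀ t, η0 ≤ η t := by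
  rcases isEmpty_or_nonempty (Fin d) with hd | hd
  · exact ⟨1, one_pos, fun t => (hd.false t).elim⟩
  · obtain ⟨t0, ht0⟩ := Finite.exists_min η
    exact ⟨η t0, h t0, ht0⟩

lemma exists_ge {d : ℕ} (η : Fin d → ℝ) : ∃ η0 : ℝ, ∀ t, η t ≤ η0 := by
  rcases isEmpty_or_nonempty (Fin d) with hd | hd
  · exact ⟨1, fun t => (hd.false t).elim⟩
  · obtain ⟨t0, ht0⟩ := Finite.exists_max η
    exact ⟨η t0, ht0⟩

theorem good {r d : ℕ} (Ω : Fin r → Fin d → ℝ) (halg : ∀ j t, IsAlgebraic ℚ (Ω j t))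
    (hind : ∀ c : Fin r → ℤ, c ≠ 0 → ∃ t, Irrational (∑ j, c j * Ω j t)) (S : Finset ℕ)
    (hS : ∀ p ∈ S, 0 < p) (k : ℕ) (A : ℝ) (hA : 0 ≤ A) :
    ∃ η : ℝ, 0 < η ∧ ∃ M0 : ℕ, ∀ M : ℕ, M0 ≤ M → ∀ P ∈ SM Ω M, ∀ q : Fin k → Fin r → ℤ,
      (∀ i, q i ∈ Fr r S A η M) → ∀ h : Fin k → ℤ, (∀ i, |(h i : ℝ)| ≤ (M : ℝ) ^ η) →
      ∑ i, h i • q i ≠ 0 → ‖hat (lin r) P (∑ i, h i • q i)‖ ≤ (M : ℝ) ^ (-η) := by
  choose ηt hηt L0t hL0t using fun t : Fin d => dioph (fun j => Ω j t) (fun j => halg j t) S hS k A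
    (1 / 2) hA (by norm_num)
  obtain ⟨η0, hη0, hη0le⟩ := exists_pos_le ηt hηt
  obtain ⟨L0, hL0⟩ := exists_ge L0t
  refine ⟨min η0 (1 / 4), by positivity, ⌈exp |L0|⌉₊ + 1, ?_⟩
  intro M hM P hP q hq h hh hne
  obtain ⟨y, rfl⟩ := hP
  have hM1 : 1 ≤ M := by omega
  have hMR : (1 : ℝ) ≤ M := by exact_mod_cast hM1
  have hMp : (0 : ℝ) < M := by linarith
  have hlog : |L0| ≤ log M := by
    rw [← Real.log_exp |L0|]
    apply Real.log_le_log (exp_pos _)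
    calc exp |L0| ≤ (⌈exp |L0|⌉₊ : ℝ) := Nat.le_ceil _
      _ ≤ M := by exact_mod_cast (by omega : ⌈exp |L0|⌉₊ ≤ M)
  have hlog0 : 0 ≤ log M := (abs_nonneg _).trans hlog
  have hpow : ∀ a : ℝ, (M : ℝ) ^ a = exp (a * log M) := fun a => by
    rw [Real.rpow_def_of_pos hMp, mul_comm]
  choose s c hs hsA hc hcη hqe using hq
  obtain ⟨t0, ht0⟩ := hind _ hne
  have hsum : ∀ j, (∑ i, h i • q i) j = ∑ i, h i * (s i * c i j) := by
    intro j
    rw [Finset.sum_apply]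
    refine sum_congr rfl fun i _ => ?_
    rw [Pi.smul_apply, smul_eq_mul, hqe i]
  have hmin : ∀ x : ℝ, x ≤ (M : ℝ) ^ (min η0 (1 / 4)) → x ≤ exp (ηt t0 * log M) := by
    intro x hx
    rw [← hpow]
    refine hx.trans (Real.rpow_le_rpow_of_exponent_le hMR ?_)
    exact (min_le_left _ _).trans (hη0le t0)
  have key := hL0t t0 (log M) ((hL0 t0).trans ((le_abs_self _).trans hlog)) s c h
  have h1 : ∀ P : ℤ, (M : ℝ) ^ (-(1 / 2) : ℝ) ≤
      |∑ j, ((∑ i, h i • q i) j : ℝ) * Ω j t0 - P| := by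
    intro P
    simp only [hsum] at ht0 ⊢
    have h2 := key P hs (fun i => by rw [← hpow]; exact hsA i) (fun i => hmin _ (hh i))
      (fun i j => hmin _ (hcη i j)) ht0
    rw [hpow]
    have e1 : -(1 / 2 : ℝ) * log M = -(1 / 2 * log M) := by ring
    rw [e1]
    exact h2.le
  refine (hat_comb hM1 Ω y _ t0 (by positivity) h1).trans ?_
  have h3 : 1 / ((M : ℝ) * (2 * (M : ℝ) ^ (-(1 / 2) : ℝ))) = 1 / 2 * (M : ℝ) ^ (-(1 / 2) : ℝ) := by
    have h4 : (M : ℝ) * (M : ℝ) ^ (-(1 / 2) : ℝ) * (M : ℝ) ^ (-(1 / 2) : ℝ) = 1 := by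
      rw [mul_assoc, ← Real.rpow_add hMp]
      norm_num
      rw [Real.rpow_neg_one]
      field_simp
    have h5 : (M : ℝ) ^ (-(1 / 2) : ℝ) ≠ 0 := by positivity
    field_simp
    linarith
  rw [h3]
  calc 1 / 2 * (M : ℝ) ^ (-(1 / 2) : ℝ) ≤ 1 * (M : ℝ) ^ (-(1 / 2) : ℝ) := by
        gcongr; norm_num
    _ = (M : ℝ) ^ (-(1 / 2) : ℝ) := one_mul _
    _ ≤ (M : ℝ) ^ (-(min η0 (1 / 4))) := by
        apply Real.rpow_le_rpow_of_exponent_le hMR
        have := min_le_right η0 (1 / 4)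
        linarith

/-- **digit tests for tuples** -/
theorem tests {r d : ℕ} (Ω : Fin r → Fin d → ℝ) (halg : ∀ j t, IsAlgebraic ℚ (Ω j t))
    (hind : ∀ c : Fin r → ℤ, c ≠ 0 → ∃ t, Irrational (∑ j, c j * Ω j t)) (S : Finset ℕ)
    (hS : ∀ p ∈ S, 0 < p) (k : ℕ) (A : ℝ) :
    ∃ δ : ℝ, 0 < δ ∧ ∃ C : ℝ, ∀ M : ℕ, 1 ≤ M → ∀ P ∈ SM Ω M, ∀ q : Fin k → Fin r → ℤ,
      (∀ i, q i ∈ Fr r S A δ M) → ∀ u v : Fin k → ℝ, (∀ i, 0 ≤ u i) → (∀ i, v i ≤ 1) →
      |P.real (Ev (lin r) q u v) - (Cube r).real (Ev (lin r) q u v)| ≤ C * (M : ℝ) ^ (-δ) := by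
  obtain ⟨η, hη, M0, hM0⟩ := good Ω halg hind S hS k (max A 0) (le_max_right _ _)
  obtain ⟨δ, hδ, hδη, C, hC⟩ := power (φ := lin r) measurable_lin (Cube r) hat_Cube k
    (S := SM Ω) (T := fun M => Fr r S (max A 0) η M) (fun M q hq h hh => Fr_ne M q hq h hh)
    (SM_prob Ω) hη M0 hM0
  refine ⟨δ, hδ, C, fun M hM P hP q hq u v hu hv => hC M hM P hP q (fun i => ?_) u v hu hv⟩
  obtain ⟨s, c, h1, h2, h3, h4, h5⟩ := hq i
  have hMR : (1 : ℝ) ≤ M := by exact_mod_cast hM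
  exact ⟨s, c, h1, h2.trans (Real.rpow_le_rpow_of_exponent_le hMR (le_max_left _ _)), h3,
    fun j => (h4 j).trans (Real.rpow_le_rpow_of_exponent_le hMR hδη), h5⟩

end Pool.Agent.Y951.TU
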