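import Pool.Agent.Y951.TU.Main
import Pool.Agent.Y933.KE.SmearRes

/-!
# Mixed digits: the digits of `r` numbers in bases `b 1, …, b r` as digits in base `b 1 ⋯ b r`
(helper951)
-/

set_option autoImplicit false

namespace Pool.Agent.Y951.TU

open Finset Real MeasureTheory
open Pool.Agent.Y933.KD (wd wd_lt wd_eq_iff Leb int_word measurable_wd Tb wd_add Tb_mem)
open Pool.Agent.Y933.KE (WE wd_floor Leb_WE wd_smear)

variable {r : ℕ}

/-- one mixed digit -/
noncomputable def mix1 (b : Fin r → ℕ) (c : Fin r → ℕ) : ℕ :=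
  if h : ∀ j, c j < b j then (finPiFinEquiv (fun j => (⟨c j, h j⟩ : Fin (b j))) : ℕ) else 0

lemma mix1_lt {b : Fin r → ℕ} (hb : ∀ j, 1 ≤ b j) (c : Fin r → ℕ) : mix1 b c < ∏ j, b j := by
  unfold mix1
  split_ifs with h
  · exact Fin.is_lt _
  · exact Finset.prod_pos fun j _ => hb j

lemma mix1_inj {b : Fin r → ℕ} {c c' : Fin r → ℕ} (h : ∀ j, c j < b j) (h' : ∀ j, c' j < b j)
    (he : mix1 b c = mix1 b c') : c = c' := by
  unfold mix1 at he
  rw [dif_pos h, dif_pos h'] at he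
  have h1 := finPiFinEquiv.injective (Fin.ext he)
  funext j
  have h2 := congrFun h1 j
  exact congrArg Fin.val h2

lemma mix1_surj {b : Fin r → ℕ} {a : ℕ} (ha : a < ∏ j, b j) :
    ∃ c : Fin r → ℕ, (∀ j, c j < b j) ∧ mix1 b c = a := by
  refine ⟨fun j => (finPiFinEquiv.symm (⟨a, ha⟩ : Fin (∏ j, b j)) j : ℕ), fun j => Fin.is_lt _, ?_⟩
  unfold mix1
  rw [dif_pos (fun j => Fin.is_lt _)]
  simp

/-- the number with the mixed digits -/
noncomputable def mix (b : Fin r → ℕ) : ℕ → (Fin r → ℕ) → ℕ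
  | 0, _ => 0
  | J + 1, W => (∏ j, b j) * mix b J (fun j => W j / b j) + mix1 b (fun j => W j % b j)

lemma prod_pos' {b : Fin r → ℕ} (hb : ∀ j, 1 ≤ b j) : 0 < ∏ j, b j :=
  Finset.prod_pos fun j _ => hb j

lemma mix_lt {b : Fin r → ℕ} (hb : ∀ j, 1 ≤ b j) : ∀ (J : ℕ) (W : Fin r → ℕ),
    mix b J W < (∏ j, b j) ^ J := by
  intro J
  induction J with
  | zero => intro W; simp [mix]
  | succ J ih =>
    intro W
    have h1 := ih (fun j => W j / b j)
    have h2 := mix1_lt hb (fun j => W j % b j)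
    have h3 := prod_pos' hb
    simp only [mix]
    calc (∏ j, b j) * mix b J (fun j => W j / b j) + mix1 b (fun j => W j % b j)
        < (∏ j, b j) * mix b J (fun j => W j / b j) + ∏ j, b j := by omega
      _ = (∏ j, b j) * (mix b J (fun j => W j / b j) + 1) := by ring
      _ ≤ (∏ j, b j) * (∏ j, b j) ^ J := Nat.mul_le_mul_left _ h1
      _ = (∏ j, b j) ^ (J + 1) := by rw [pow_succ']

lemma mix_div_one {b : Fin r → ℕ} (hb : ∀ j, 1 ≤ b j) (J : ℕ) (W : Fin r → ℕ) :
    mix b (J + 1) W / (∏ j, b j) = mix b J (fun j => W j / b j) := by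
  simp only [mix]
  rw [Nat.mul_add_div (prod_pos' hb), Nat.div_eq_of_lt (mix1_lt hb _), add_zero]

lemma mix_mod_one {b : Fin r → ℕ} (hb : ∀ j, 1 ≤ b j) (J : ℕ) (W : Fin r → ℕ) :
    mix b (J + 1) W % (∏ j, b j) = mix1 b (fun j => W j % b j) := by
  simp only [mix]
  rw [Nat.mul_add_mod, Nat.mod_eq_of_lt (mix1_lt hb _)]

lemma mix_div {b : Fin r → ℕ} (hb : ∀ j, 1 ≤ b j) (n : ℕ) : ∀ (m : ℕ) (W : Fin r → ℕ),
    mix b (m + n) W / (∏ j, b j) ^ m = mix b n (fun j => W j / b j ^ m) := by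
  intro m
  induction m with
  | zero => intro W; simp
  | succ m ih =>
    intro W
    rw [pow_succ', ← Nat.div_div_eq_div_mul, show m + 1 + n = m + n + 1 by ring, mix_div_one hb, ih]
    congr 1
    funext j
    rw [Nat.div_div_eq_div_mul, pow_succ']

lemma mix_mod {b : Fin r → ℕ} (hb : ∀ j, 1 ≤ b j) (n : ℕ) : ∀ (m : ℕ) (W : Fin r → ℕ),
    mix b (m + n) W % (∏ j, b j) ^ m = mix b m (fun j => W j % b j ^ m) := by
  intro m
  induction m with
  | zero => intro W; simp [mix, Nat.mod_one]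
  | succ m ih =>
    intro W
    have h0 : mix b (m + 1 + n) W % (∏ j, b j) ^ (m + 1) =
        (∏ j, b j) * (mix b (m + 1 + n) W / (∏ j, b j) % (∏ j, b j) ^ m) +
          mix b (m + 1 + n) W % (∏ j, b j) := by
      rw [pow_succ', Nat.mod_mul, add_comm]
    rw [h0, show m + 1 + n = m + n + 1 by ring, mix_div_one hb, mix_mod_one hb, ih]
    simp only [mix]
    congr 2
    · congr 1
      funext j
      rw [pow_succ', Nat.mod_mul_right_div_self]
    · funext j
      rw [Nat.mod_mod_of_dvd]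
      exact dvd_pow_self _ (by omega)

lemma mix_sub {b : Fin r → ℕ} (hb : ∀ j, 1 ≤ b j) {n w J : ℕ} (h : n + w ≤ J) (W : Fin r → ℕ) :
    mix b J W / (∏ j, b j) ^ (J - (n + w)) % (∏ j, b j) ^ w =
      mix b w (fun j => W j / b j ^ (J - (n + w)) % b j ^ w) := by
  obtain ⟨m, rfl⟩ := Nat.exists_eq_add_of_le' h
  rw [Nat.add_sub_cancel, mix_div hb, add_comm n w, mix_mod hb]

lemma mix_inj {b : Fin r → ℕ} (hb : ∀ j, 1 ≤ b j) : ∀ (J : ℕ) (W W' : Fin r → ℕ),
    (∀ j, W j < b j ^ J) → (∀ j, W' j < b j ^ J) → mix b J W = mix b J W' → W = W' := by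
  intro J
  induction J with
  | zero =>
    intro W W' h h' _
    funext j
    have h1 := h j
    have h2 := h' j
    rw [pow_zero] at h1 h2
    omega
  | succ J ih =>
    intro W W' h h' he
    have h1 : mix b J (fun j => W j / b j) = mix b J (fun j => W' j / b j) := by
      rw [← mix_div_one hb, ← mix_div_one hb, he]
    have h2 : mix1 b (fun j => W j % b j) = mix1 b (fun j => W' j % b j) := by
      rw [← mix_mod_one hb J, ← mix_mod_one hb J, he]
    have hdiv : ∀ (V : Fin r → ℕ), (∀ j, V j < b j ^ (J + 1)) → ∀ j, V j / b j < b j ^ J := by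
      intro V hV j
      rw [Nat.div_lt_iff_lt_mul (hb j), ← pow_succ]
      exact hV j
    have h3 := ih _ _ (hdiv W h) (hdiv W' h') h1
    have h4 := mix1_inj (fun j => Nat.mod_lt _ (hb j)) (fun j => Nat.mod_lt _ (hb j)) h2
    funext j
    have h5 := congrFun h3 j
    have h6 := congrFun h4 j
    rw [← Nat.div_add_mod (W j) (b j), ← Nat.div_add_mod (W' j) (b j), h5, h6]

lemma mix_surj {b : Fin r → ℕ} (hb : ∀ j, 1 ≤ b j) : ∀ (J a : ℕ), a < (∏ j, b j) ^ J →
    ∃ W : Fin r → ℕ, (∀ j, W j < b j ^ J) ∧ mix b J W = a := by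
  intro J
  induction J with
  | zero =>
    intro a ha
    rw [pow_zero, Nat.lt_one_iff] at ha
    exact ⟨fun _ => 0, fun j => by simp, by simp [mix, ha]⟩
  | succ J ih =>
    intro a ha
    obtain ⟨V, hV, hV2⟩ := ih (a / ∏ j, b j) (by
      rw [Nat.div_lt_iff_lt_mul (prod_pos' hb), ← pow_succ]
      exact ha)
    obtain ⟨c, hc, hc2⟩ := mix1_surj (b := b) (Nat.mod_lt a (prod_pos' hb))
    refine ⟨fun j => b j * V j + c j, fun j => ?_, ?_⟩
    · calc b j * V j + c j < b j * V j + b j := by have := hc j; omega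
        _ = b j * (V j + 1) := by ring
        _ ≤ b j * b j ^ J := Nat.mul_le_mul_left _ (hV j)
        _ = b j ^ (J + 1) := by rw [pow_succ']
    · simp only [mix]
      have e1 : (fun j => (b j * V j + c j) / b j) = V := by
        funext j
        rw [Nat.mul_add_div (hb j), Nat.div_eq_of_lt (hc j), add_zero]
      have e2 : (fun j => (b j * V j + c j) % b j) = c := by
        funext j
        rw [Nat.mul_add_mod, Nat.mod_eq_of_lt (hc j)]
      rw [e1, e2, hV2, hc2]
      exact Nat.div_add_mod a _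

/-- the tuples of words -/
def words (b : Fin r → ℕ) (J : ℕ) : Finset (Fin r → ℕ) :=
  Fintype.piFinset fun j => range (b j ^ J)

lemma mem_words {b : Fin r → ℕ} {J : ℕ} {W : Fin r → ℕ} : W ∈ words b J ↔ ∀ j, W j < b j ^ J := by
  unfold words
  simp only [Fintype.mem_piFinset, mem_range]

/-- sums over tuples of words are sums over mixed words -/
lemma sum_words {E : Type*} [AddCommMonoid E] {b : Fin r → ℕ} (hb : ∀ j, 1 ≤ b j) (J : ℕ)
    (f : ℕ → E) : ∑ W ∈ words b J, f (mix b J W) = ∑ a ∈ range ((∏ j, b j) ^ J), f a := by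
  refine sum_bij (fun W _ => mix b J W) ?_ ?_ ?_ ?_
  · intro W _
    exact mem_range.2 (mix_lt hb J W)
  · intro W hW W' hW' h
    exact mix_inj hb J W W' (mem_words.1 hW) (mem_words.1 hW') h
  · intro a ha
    obtain ⟨W, hW, hW2⟩ := mix_surj hb J a (mem_range.1 ha)
    exact ⟨W, mem_words.2 hW, hW2⟩
  · intro W _
    rfl

/-- the tuple of the words of `w` digits after the first `s j` digits -/
noncomputable def tw (b : Fin r → ℕ) (w : ℕ) (s : Fin r → ℕ) (x : Fin r → ℝ) : Fin r → ℕ :=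
  fun j => wd (b j) w (s j) (x j)

lemma tw_lt {b : Fin r → ℕ} (hb : ∀ j, 1 ≤ b j) (w : ℕ) (s : Fin r → ℕ) (x : Fin r → ℝ) (j : Fin r) :
    tw b w s x j < b j ^ w := wd_lt (hb j) _ _ _

lemma wd_sub {b : ℕ} (hb : 1 ≤ b) {n w J : ℕ} (h : n + w ≤ J) (s : ℕ) (x : ℝ) :
    wd b J s x / b ^ (J - (n + w)) % b ^ w = wd b w (s + n) x := by
  rw [wd_add, wd_floor hb h (Tb_mem b s x).1]
  rfl

lemma mix_tw {b : Fin r → ℕ} (hb : ∀ j, 1 ≤ b j) {n w J : ℕ} (h : n + w ≤ J) (s : Fin r → ℕ)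
    (x : Fin r → ℝ) : mix b J (tw b J s x) / (∏ j, b j) ^ (J - (n + w)) % (∏ j, b j) ^ w =
      mix b w (tw b w (fun j => s j + n) x) := by
  rw [mix_sub hb h]
  congr 1
  funext j
  exact wd_sub (hb j) h _ _

lemma Leb_wd {b : ℕ} (hb : 1 ≤ b) (J s : ℕ) {c : ℕ} (hc : c < b ^ J) :
    Leb.real {x | wd b J s x = c} = 1 / (b : ℝ) ^ J := by
  classical
  have hm : MeasurableSet {x | wd b J s x = c} :=
    measurableSet_eq_fun (measurable_wd _ _ _) measurable_const
  have h1 := int_word hb J s (fun a => if a = c then (1 : ℝ) else 0)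
  rw [← integral_indicator_one hm]
  have h2 : ∀ x, ({x | wd b J s x = c} : Set ℝ).indicator (1 : ℝ → ℝ) x =
      if wd b J s x = c then 1 else 0 := by
    intro x
    by_cases hx : wd b J s x = c
    · rw [Set.indicator_of_mem (by exact hx), if_pos hx]
      rfl
    · rw [Set.indicator_of_notMem (by exact hx), if_neg hx]
  simp only [h2]
  rw [h1, sum_ite_eq', if_pos (mem_range.2 hc)]

lemma measurableSet_tw (b : Fin r → ℕ) (w : ℕ) (s : Fin r → ℕ) (p : (Fin r → ℕ) → Prop) :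
    MeasurableSet {x | p (tw b w s x)} := by
  have h1 : Measurable (tw b w s) := by
    unfold tw
    exact measurable_pi_lambda _ fun j => (measurable_wd _ _ _).comp (measurable_pi_apply j)
  exact h1 (MeasurableSet.of_discrete (s := {c | p c}))

lemma Cube_tw {b : Fin r → ℕ} (hb : ∀ j, 1 ≤ b j) (J : ℕ) (s : Fin r → ℕ) {V : Fin r → ℕ}
    (hV : V ∈ words b J) :
    (Cube r).real {x | tw b J s x = V} = 1 / ((∏ j, b j : ℕ) : ℝ) ^ J := by
  have h1 : {x : Fin r → ℝ | tw b J s x = V} =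
      Set.univ.pi fun j => {t : ℝ | wd (b j) J (s j) t = V j} := by
    ext x
    simp only [Set.mem_pi, Set.mem_univ, forall_true_left, Set.mem_ofPred_eq]
    exact funext_iff
  unfold Measure.real Cube
  rw [h1, Measure.pi_pi, ENNReal.toReal_prod]
  have h2 : ∀ j, (Leb {t : ℝ | wd (b j) J (s j) t = V j}).toReal = 1 / (b j : ℝ) ^ J :=
    fun j => Leb_wd (hb j) J (s j) (mem_words.1 hV j)
  simp only [h2]
  rw [prod_div_distrib, prod_const_one, prod_pow]
  push_cast
  rfl

/-- events depending on a tuple of words, for any probability measure -/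
lemma real_tw {b : Fin r → ℕ} (hb : ∀ j, 1 ≤ b j) (J : ℕ) (s : Fin r → ℕ)
    (P : Measure (Fin r → ℝ)) [IsProbabilityMeasure P] (p : (Fin r → ℕ) → Prop)
    [DecidablePred p] :
    P.real {x | p (tw b J s x)} = ∑ V ∈ (words b J).filter p, P.real {x | tw b J s x = V} := by
  have hU : {x | p (tw b J s x)} = ⋃ V ∈ (words b J).filter p, {x | tw b J s x = V} := by
    ext x
    simp only [Set.mem_ofPred_eq, Set.mem_iUnion, mem_filter]
    constructor
    · intro hx
      exact ⟨tw b J s x, ⟨mem_words.2 (tw_lt hb _ _ _), hx⟩, rfl⟩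
    · rintro ⟨c, ⟨_, hc⟩, hx⟩
      rw [hx]; exact hc
  rw [hU, measureReal_biUnion_finset]
  · intro c _ c' _ hcc
    rw [Function.onFun, Set.disjoint_left]
    intro x hx hx'
    exact hcc (hx.symm.trans hx')
  · intro c _
    exact measurableSet_tw b J s (fun W => W = c)

/-- word events for the cube and for the interval -/
lemma Cube_WE {b : Fin r → ℕ} (hb : ∀ j, 1 ≤ b j) {k : ℕ} (s : Fin r → ℕ) (n w c : Fin k → ℕ) :
    (Cube r).real {x | ∀ i, mix b (w i) (tw b (w i) (fun j => s j + n i) x) = c i} =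
      Leb.real (WE (∏ j, b j) n w c) := by
  classical
  obtain ⟨J, hJ⟩ := exists_ge (fun i : Fin k => ((n i + w i : ℕ) : ℝ))
  obtain ⟨J', hJ'⟩ := exists_nat_ge J
  have hJ2 : ∀ i, n i + w i ≤ J' := fun i => by
    have := (hJ i).trans hJ'
    exact_mod_cast this
  have hq : 1 ≤ ∏ j, b j := prod_pos' hb
  rw [Leb_WE hq hJ2]
  have h1 : {x | ∀ i, mix b (w i) (tw b (w i) (fun j => s j + n i) x) = c i} =
      {x | (fun W => ∀ i, mix b J' W / (∏ j, b j) ^ (J' - (n i + w i)) % (∏ j, b j) ^ (w i) = c i)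
        (tw b J' s x)} := by
    ext x
    simp only [Set.mem_ofPred_eq]
    refine forall_congr' fun i => ?_
    rw [mix_tw hb (hJ2 i)]
  have h3 := real_tw hb J' s (Cube r) (fun W => ∀ i, mix b J' W /
    (∏ j, b j) ^ (J' - (n i + w i)) % (∏ j, b j) ^ (w i) = c i)
  rw [h1]
  refine h3.trans ?_
  rw [sum_congr rfl fun V hV => Cube_tw hb J' s (mem_filter.1 hV).1, sum_const, nsmul_eq_mul,
    mul_one_div]
  congr 1
  have h2 := sum_words hb J' (fun a => if ∀ i, a / (∏ j, b j) ^ (J' - (n i + w i)) %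
    (∏ j, b j) ^ (w i) = c i then (1 : ℕ) else 0)
  rw [Nat.cast_inj, card_filter, card_filter]
  convert h2

end Pool.Agent.Y951.TU
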