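import Pool.Agent.Y951.TU.Fam

/-!
# Joint normality of the multiples of a tuple up to a multiple of `log M` digits (helper951)
-/

set_option autoImplicit false

namespace Pool.Agent.Y951.TU

open Finset Real MeasureTheory Filter Topology
open Pool.Agent.Y933.KD (wd Leb box card_box WS ci WS_ci)
open Pool.Agent.Y933.KE (TW normal_TW)

variable {r : ℕ}

lemma two_le_prod (hr : 1 ≤ r) {b : Fin r → ℕ} (hb : ∀ j, 2 ≤ b j) : 2 ≤ ∏ j, b j := by
  have j0 : Fin r := ⟨0, hr⟩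
  rw [← Finset.mul_prod_erase univ _ (mem_univ j0)]
  have h1 : 0 < ∏ j ∈ univ.erase j0, b j := Finset.prod_pos fun j _ => by have := hb j; omega
  have h2 := hb j0
  nlinarith

open Classical in
theorem normal_tuple {d : ℕ} (hr : 1 ≤ r) (Ω : Fin r → Fin d → ℝ)
    (halg : ∀ j t, IsAlgebraic ℚ (Ω j t))
    (hind : ∀ c : Fin r → ℤ, c ≠ 0 → ∃ t, Irrational (∑ j, c j * Ω j t)) {b : Fin r → ℕ}
    (hb : ∀ j, 2 ≤ b j) (w : ℕ) (A ε : ℝ) (hε : 0 < ε) :
    ∃ c : ℝ, 0 < c ∧ ∃ M₀ : ℕ, ∀ M : ℕ, M₀ ≤ M → ∀ y : Fin r → ℝ,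
      (((box d M).filter (fun m => ¬ ∀ (k : ℕ) (D s : Fin r → ℕ) (N : ℕ), 1 ≤ k → k ≤ w →
        (∀ j, D j < b j ^ k) → (∀ j, (s j : ℝ) + N ≤ A * log M) →
        |(((range N).filter (fun i => tw b k (fun j => s j + i) (comb Ω y m) = D)).card : ℝ) -
          N / ((∏ j, b j : ℕ) : ℝ) ^ k| ≤ ε * log M)).card : ℝ) ≤ (M : ℝ) ^ (d - c) := by
  have hb1 : ∀ j, 1 ≤ b j := fun j => by have := hb j; omega
  obtain ⟨c, hc, M0, h⟩ := normal_TW (b := ∏ j, b j) (w := max w 1) (two_le_prod hr hb)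
    (le_max_right _ _) (A := A) hε (SX_prob Ω b A (A + 1)) (TW_SX Ω halg hind hb1 A (A + 1) 1)
  have hrR : (0 : ℝ) < r := by exact_mod_cast hr
  set η : ℝ := c / (4 * r) with hη
  have hη0 : 0 < η := by positivity
  set C1 : ℝ := ((|A| + 1) * (1 + 1 / η)) ^ r with hC1
  have hlog : Tendsto (fun M : ℕ => log (M : ℝ)) atTop atTop :=
    Real.tendsto_log_atTop.comp tendsto_natCast_atTop_atTop
  obtain ⟨M1, hM1⟩ := eventually_atTop.1 ((hlog.eventually_ge_atTop (w : ℝ)).and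
    (Pool.Agent.Y933.KD.VdC.ev_le C1 (c / 4) (by positivity)))
  refine ⟨c / 2, by positivity, max (max M0 M1) 2, fun M hM y => ?_⟩
  have hM0 : M0 ≤ M := (le_max_left _ _).trans ((le_max_left _ _).trans hM)
  obtain ⟨hM2, hM3⟩ := hM1 M ((le_max_right _ _).trans ((le_max_left _ _).trans hM))
  have hM4 : 2 ≤ M := (le_max_right _ _).trans hM
  have hMR : (2 : ℝ) ≤ M := by exact_mod_cast hM4
  have hMp : (0 : ℝ) < M := by linarith
  have hM1' : (1 : ℝ) ≤ M := by linarith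
  set t : ℝ := log M with ht
  have ht0 : 0 < t := Real.log_pos (by linarith)
  obtain ⟨U, hU, hP, hx⟩ := h M hM0
  set J : ℕ := ⌈(A + 1) * t⌉₊ with hJ
  have hJ1 : (A + 1) * t ≤ J := Nat.le_ceil _
  set P : Measure (Fin r → ℝ) := unif (box d M) (comb Ω y) with hPdef
  have hPS : P ∈ SM Ω M := ⟨y, rfl⟩
  have hPprob := SM_prob Ω M (by omega) P hPS
  -- the starting places
  set T : Finset (Fin r → ℕ) := (Fintype.piFinset fun _ : Fin r => range (⌊|A| * t⌋₊ + 1)).filter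
    (fun s => ∀ j, (s j : ℝ) ≤ A * t) with hT
  have hone : ∀ s ∈ T, (((box d M).filter (fun m => Psi b J s (comb Ω y m) ∈ U)).card : ℝ) ≤
      (M : ℝ) ^ (d - c) := by
    intro s hs
    rw [hT, mem_filter] at hs
    have h1 := hP (P.map (Psi b J s)) ⟨P, hPS, s, J, hs.2, hJ1, rfl⟩
    rw [map_measureReal_apply (measurable_Psi b J s) hU] at h1
    rw [hPdef, real_unif _ _ (measurable_Psi b J s hU), card_box] at h1
    push_cast at h1
    rw [div_le_iff₀ (by positivity)] at h1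
    refine h1.trans (le_of_eq ?_)
    rw [← Real.rpow_natCast (M : ℝ) d, ← Real.rpow_add hMp]
    congr 1
    ring
  have hTcard : (T.card : ℝ) ≤ C1 * (M : ℝ) ^ (c / 4) := by
    have h1 : T.card ≤ (⌊|A| * t⌋₊ + 1) ^ r := by
      refine (card_filter_le _ _).trans (le_of_eq ?_)
      rw [Fintype.card_piFinset]
      simp
    have h2 : ((⌊|A| * t⌋₊ : ℕ) : ℝ) ≤ |A| * t := Nat.floor_le (by positivity)
    have h3 : 1 + t ≤ (1 + 1 / η) * (M : ℝ) ^ η :=
      Pool.Agent.Y933.KD.VdC.one_add_log_le hM1' hη0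
    calc (T.card : ℝ) ≤ (((⌊|A| * t⌋₊ + 1) ^ r : ℕ) : ℝ) := by exact_mod_cast h1
      _ = ((⌊|A| * t⌋₊ : ℝ) + 1) ^ r := by push_cast; ring
      _ ≤ ((|A| + 1) * (1 + t)) ^ r := by
          gcongr
          nlinarith [abs_nonneg A]
      _ ≤ ((|A| + 1) * ((1 + 1 / η) * (M : ℝ) ^ η)) ^ r := by gcongr
      _ = C1 * ((M : ℝ) ^ η) ^ r := by rw [hC1, ← mul_assoc, mul_pow]
      _ = C1 * (M : ℝ) ^ (c / 4) := by
          rw [← Real.rpow_natCast ((M : ℝ) ^ η), ← Real.rpow_mul hMp.le]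
          congr 2
          rw [hη]
          field_simp
  have hsub : (box d M).filter (fun m => ¬ ∀ (k : ℕ) (D s : Fin r → ℕ) (N : ℕ), 1 ≤ k → k ≤ w →
        (∀ j, D j < b j ^ k) → (∀ j, (s j : ℝ) + N ≤ A * t) →
        |(((range N).filter (fun i => tw b k (fun j => s j + i) (comb Ω y m) = D)).card : ℝ) -
          N / ((∏ j, b j : ℕ) : ℝ) ^ k| ≤ ε * t) ⊆
      T.biUnion fun s => (box d M).filter (fun m => Psi b J s (comb Ω y m) ∈ U) := by
    intro m hm
    rw [mem_filter] at hm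
    obtain ⟨hmb, hm⟩ := hm
    by_contra hcon
    apply hm
    intro k D s N hk hkw hD hsN
    have hsA : ∀ j, (s j : ℝ) ≤ A * t := fun j => by
      have h1 := hsN j
      have h2 : (0 : ℝ) ≤ N := Nat.cast_nonneg N
      linarith
    have hsT : s ∈ T := by
      rw [hT, mem_filter, Fintype.mem_piFinset]
      refine ⟨fun j => ?_, hsA⟩
      rw [mem_range, Nat.lt_succ_iff]
      apply Nat.le_floor
      refine (hsA j).trans ?_
      gcongr
      exact le_abs_self A
    have hmU : Psi b J s (comb Ω y m) ∉ U := by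
      intro h1
      apply hcon
      rw [mem_biUnion]
      exact ⟨s, hsT, mem_filter.2 ⟨hmb, h1⟩⟩
    have hNA : (N : ℝ) ≤ A * t := by
      have h1 := hsN ⟨0, hr⟩
      have h2 : (0 : ℝ) ≤ s ⟨0, hr⟩ := Nat.cast_nonneg _
      linarith
    have hDm : mix b k D < (∏ j, b j) ^ k := mix_lt hb1 k D
    have h2 := hx _ hmU k (mix b k D) 0 N hk (hkw.trans (le_max_left _ _)) hDm (by
      push_cast
      rw [zero_add]
      exact hNA)
    rw [WS_ci (prod_pos' hb1)] at h2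
    have h3 : (range N).filter (fun i => wd (∏ j, b j) k (0 + i) (Psi b J s (comb Ω y m)) =
        mix b k D) = (range N).filter (fun i => tw b k (fun j => s j + i) (comb Ω y m) = D) := by
      refine filter_congr fun i hi => ?_
      rw [mem_range] at hi
      have h4 : i + k ≤ J := by
        have h5 : ((i + k : ℕ) : ℝ) ≤ J := by
          push_cast
          have h6 : (i : ℝ) ≤ N := by exact_mod_cast hi.le
          have h7 : (k : ℝ) ≤ w := by exact_mod_cast hkw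
          calc (i : ℝ) + k ≤ A * t + t := by linarith
            _ = (A + 1) * t := by ring
            _ ≤ J := hJ1
        exact_mod_cast h5
      rw [zero_add, wd_Psi hb1 h4]
      constructor
      · intro h5
        exact mix_inj hb1 k _ _ (tw_lt hb1 _ _ _) hD h5
      · intro h5
        rw [h5]
    rw [h3] at h2
    exact h2
  calc _ ≤ ((T.biUnion fun s => (box d M).filter (fun m => Psi b J s (comb Ω y m) ∈ U)).card : ℝ) :=
        Nat.cast_le.2 (card_le_card hsub)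
    _ ≤ ((∑ s ∈ T, ((box d M).filter (fun m => Psi b J s (comb Ω y m) ∈ U)).card : ℕ) : ℝ) :=
        Nat.cast_le.2 card_biUnion_le
    _ = ∑ s ∈ T, (((box d M).filter (fun m => Psi b J s (comb Ω y m) ∈ U)).card : ℝ) := by
        push_cast; rfl
    _ ≤ ∑ _s ∈ T, (M : ℝ) ^ (d - c) := sum_le_sum hone
    _ = T.card * (M : ℝ) ^ (d - c) := by rw [sum_const, nsmul_eq_mul]
    _ ≤ (C1 * (M : ℝ) ^ (c / 4)) * (M : ℝ) ^ (d - c) := by gcongr
    _ ≤ ((M : ℝ) ^ (c / 4) * (M : ℝ) ^ (c / 4)) * (M : ℝ) ^ (d - c) := by gcongr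
    _ = (M : ℝ) ^ (d - c / 2) := by
        rw [← Real.rpow_add hMp, ← Real.rpow_add hMp]
        congr 1
        ring

end Pool.Agent.Y951.TU
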