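import Pool.Agent.Y933.KD.Test

/-!
# Comparison of two probability measures on products of intervals, abstract form (helper951)

The frequencies form an abelian group `Λ` and `φ l` is the real function with frequency `l`.
Adapted from helper933's one dimensional version `Y933.KD.Test`.
-/

set_option autoImplicit false

namespace Pool.Agent.Y951.TU

open Finset Real MeasureTheory
open Pool.Agent.Y933.KD (e e_zero e_add norm_e e_neg continuous_e F F_nonneg F_expand TP TP_F TP_g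
  ind ind_nonneg ind_le_one g g_nonneg g_le_one w appr e_sum prod_diff D measurable_ind)

variable {X Λ : Type*} [MeasurableSpace X] [AddCommGroup Λ]

/-- Fourier coefficients -/
noncomputable def hat (φ : Λ →+ (X → ℝ)) (P : Measure X) (l : Λ) : ℂ := ∫ x, e (φ l x) ∂P

lemma integrable_e (P : Measure X) [IsFiniteMeasure P] {f : X → ℝ} (hf : Measurable f) :
    Integrable (fun x => e (f x)) P := by
  refine Integrable.of_bound (C := 1) ?_ ?_
  · exact (continuous_e.measurable.comp hf).aestronglyMeasurable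
  · exact Filter.Eventually.of_forall fun x => (norm_e _).le

lemma map_sum_smul (φ : Λ →+ (X → ℝ)) {k : ℕ} (h : Fin k → ℤ) (q : Fin k → Λ) (x : X) :
    φ (∑ i, h i • q i) x = ∑ i, h i * φ (q i) x := by
  rw [map_sum, Finset.sum_apply]
  refine sum_congr rfl fun i _ => ?_
  rw [map_zsmul, Pi.smul_apply, zsmul_eq_mul]

lemma hat_zero (φ : Λ →+ (X → ℝ)) (P : Measure X) [IsProbabilityMeasure P] : hat φ P 0 = 1 := by
  simp [hat, e_zero]

lemma expand {k H : ℕ} (φ : Λ →+ (X → ℝ)) (f : Fin k → ℝ → ℝ) (hf : ∀ i, TP H (f i))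
    (q : Fin k → Λ) :
    ∃ d : (Fin k → ℤ) → ℂ, (∀ h, ‖d h‖ ≤ 1) ∧ ∀ x : X, ((∏ i, f i (φ (q i) x) : ℝ) : ℂ) =
      ∑ h ∈ Fintype.piFinset (fun _ : Fin k => Finset.Icc (-(H : ℤ)) H),
        d h * e (φ (∑ i, h i • q i) x) := by
  choose c hc1 hc2 using hf
  refine ⟨fun h => ∏ i, c i (h i), fun h => ?_, fun x => ?_⟩
  · rw [norm_prod]
    exact prod_le_one (fun i _ => norm_nonneg _) fun i _ => hc1 i _
  · push_cast
    simp only [hc2]
    rw [prod_univ_sum]
    refine sum_congr rfl fun h _ => ?_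
    rw [prod_mul_distrib, ← e_sum]
    congr 2
    rw [map_sum_smul]

lemma diff_tp {k H : ℕ} {φ : Λ →+ (X → ℝ)} (hφ : ∀ l, Measurable (φ l)) (P Q : Measure X)
    [IsProbabilityMeasure P] [IsProbabilityMeasure Q]
    (f : Fin k → ℝ → ℝ) (hf : ∀ i, TP H (f i)) (q : Fin k → Λ) (Δ : ℝ)
    (hΔ : ∀ h : Fin k → ℤ, (∀ i, |h i| ≤ H) →
      ‖hat φ P (∑ i, h i • q i) - hat φ Q (∑ i, h i • q i)‖ ≤ Δ) :
    |∫ x, ∏ i, f i (φ (q i) x) ∂P - ∫ x, ∏ i, f i (φ (q i) x) ∂Q| ≤ (2 * H + 1) ^ k * Δ := by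
  obtain ⟨d, hd1, hd2⟩ := expand φ f hf q
  have key : ∀ (P : Measure X) [IsProbabilityMeasure P],
      ((∫ x, ∏ i, f i (φ (q i) x) ∂P : ℝ) : ℂ) =
      ∑ h ∈ Fintype.piFinset (fun _ : Fin k => Finset.Icc (-(H : ℤ)) H),
        d h * hat φ P (∑ i, h i • q i) := by
    intro P _
    rw [← integral_complex_ofReal]
    have h1 : (fun x : X => ((∏ i, f i (φ (q i) x) : ℝ) : ℂ)) = fun x =>
        ∑ h ∈ Fintype.piFinset (fun _ : Fin k => Finset.Icc (-(H : ℤ)) H),
        d h * e (φ (∑ i, h i • q i) x) := funext hd2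
    rw [h1, integral_finsetSum _ fun h _ => (integrable_e P (hφ _)).const_mul _]
    refine sum_congr rfl fun h _ => ?_
    rw [integral_const_mul]
    rfl
  have h2 : (((∫ x, ∏ i, f i (φ (q i) x) ∂P - ∫ x, ∏ i, f i (φ (q i) x) ∂Q : ℝ)) : ℂ) =
      ∑ h ∈ Fintype.piFinset (fun _ : Fin k => Finset.Icc (-(H : ℤ)) H),
        d h * (hat φ P (∑ i, h i • q i) - hat φ Q (∑ i, h i • q i)) := by
    push_cast
    rw [key P, key Q, ← sum_sub_distrib]
    refine sum_congr rfl fun h _ => ?_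
    ring
  have h3 : |∫ x, ∏ i, f i (φ (q i) x) ∂P - ∫ x, ∏ i, f i (φ (q i) x) ∂Q| =
      ‖(((∫ x, ∏ i, f i (φ (q i) x) ∂P - ∫ x, ∏ i, f i (φ (q i) x) ∂Q : ℝ)) : ℂ)‖ := by
    rw [Complex.norm_real, Real.norm_eq_abs]
  rw [h3, h2]
  have hΔ0 : 0 ≤ Δ := (norm_nonneg _).trans (hΔ 0 (by simp))
  refine (norm_sum_le _ _).trans ?_
  have h4 : ∀ h ∈ Fintype.piFinset (fun _ : Fin k => Finset.Icc (-(H : ℤ)) H),
      ‖d h * (hat φ P (∑ i, h i • q i) - hat φ Q (∑ i, h i • q i))‖ ≤ Δ := by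
    intro h hh
    rw [Fintype.mem_piFinset] at hh
    rw [norm_mul]
    calc ‖d h‖ * _ ≤ 1 * Δ := by
          gcongr
          · exact hd1 h
          · exact hΔ h fun i => abs_le.2 (Finset.mem_Icc.1 (hh i))
      _ = Δ := one_mul _
  refine (sum_le_sum h4).trans ?_
  rw [sum_const, nsmul_eq_mul, Fintype.card_piFinset]
  simp only [Int.card_Icc, prod_const, card_univ, Fintype.card_fin]
  have h5 : ((H : ℤ) + 1 - -(H : ℤ)).toNat = 2 * H + 1 := by omega
  rw [h5]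
  push_cast
  exact le_rfl

lemma e_lin (φ : Λ →+ (X → ℝ)) (a : ℤ) (q : Λ) (u : ℝ) (x : X) :
    e ((a : ℝ) * (φ q x - u)) = e (-((a : ℝ) * u)) * e (φ (a • q) x) := by
  rw [← e_add, map_zsmul, Pi.smul_apply, zsmul_eq_mul]
  congr 1
  ring

/-- the integral of the Fejer kernel -/
lemma int_F {K : ℕ} (hK : 0 < K) {φ : Λ →+ (X → ℝ)} (hφ : ∀ l, Measurable (φ l))
    (Q : Measure X) [IsProbabilityMeasure Q] (q : Λ) (u Δ : ℝ)
    (hQ : ∀ h : ℤ, h ≠ 0 → |h| ≤ K → ‖hat φ Q (h • q)‖ ≤ Δ) :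
    |∫ x, F K (φ q x - u) ∂Q - 1| ≤ K * Δ := by
  classical
  have hKR : (0 : ℝ) < K := by exact_mod_cast hK
  have hKC : (K : ℂ) ≠ 0 := by exact_mod_cast hK.ne'
  have h1 : ((∫ x, F K (φ q x - u) ∂Q : ℝ) : ℂ) = (1 / K) * ∑ p ∈ range K ×ˢ range K,
      e (-((((p.1 : ℤ) - (p.2 : ℤ) : ℤ) : ℝ) * u)) *
        hat φ Q ((((p.1 : ℤ) - (p.2 : ℤ))) • q) := by
    rw [← integral_complex_ofReal]
    simp only [F_expand]
    rw [integral_const_mul, integral_finsetSum]
    · congr 1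
      refine sum_congr rfl fun p _ => ?_
      unfold hat
      rw [← integral_const_mul]
      congr 1
      funext x
      exact e_lin φ _ q u x
    · intro p _
      have : (fun x : X => e (((p.1 : ℤ) - (p.2 : ℤ) : ℤ) * (φ q x - u))) =
          fun x => e (-((((p.1 : ℤ) - (p.2 : ℤ) : ℤ) : ℝ) * u)) *
            e (φ (((p.1 : ℤ) - (p.2 : ℤ)) • q) x) := by
        funext x
        exact e_lin φ _ q u x
      rw [this]
      exact (integrable_e Q (hφ _)).const_mul _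
  have h2 : ((∫ x, F K (φ q x - u) ∂Q - 1 : ℝ) : ℂ) = (1 / K) *
      ∑ p ∈ (range K ×ˢ range K).filter (fun p => p.1 ≠ p.2),
      e (-((((p.1 : ℤ) - (p.2 : ℤ) : ℤ) : ℝ) * u)) * hat φ Q (((p.1 : ℤ) - (p.2 : ℤ)) • q) := by
    rw [Complex.ofReal_sub, Complex.ofReal_one, h1,
      ← sum_filter_add_sum_filter_not (range K ×ˢ range K) (fun p => p.1 ≠ p.2), mul_add]
    have h3 : ∑ p ∈ (range K ×ˢ range K).filter (fun p => ¬ (p.1 ≠ p.2)),
        e (-((((p.1 : ℤ) - (p.2 : ℤ) : ℤ) : ℝ) * u)) *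
          hat φ Q (((p.1 : ℤ) - (p.2 : ℤ)) • q) = K := by
      have h4 : ∀ p ∈ (range K ×ˢ range K).filter (fun p => ¬ (p.1 ≠ p.2)),
          e (-((((p.1 : ℤ) - (p.2 : ℤ) : ℤ) : ℝ) * u)) *
            hat φ Q (((p.1 : ℤ) - (p.2 : ℤ)) • q) = 1 := by
        intro p hp
        rw [mem_filter, not_not] at hp
        rw [hp.2, sub_self, zero_smul, hat_zero]
        simp [e_zero]
      rw [sum_congr rfl h4, sum_const, nsmul_eq_mul, mul_one]
      have h5 : ((range K ×ˢ range K).filter (fun p => ¬ (p.1 ≠ p.2))) =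
          (range K).image (fun i => (i, i)) := by
        ext p
        simp only [ne_eq, not_not, mem_filter, mem_product, mem_range, mem_image]
        constructor
        · rintro ⟨⟨h, _⟩, h'⟩
          exact ⟨p.1, h, Prod.ext rfl h'⟩
        · rintro ⟨i, hi, rfl⟩
          exact ⟨⟨hi, hi⟩, rfl⟩
      rw [h5, card_image_of_injective _ (fun i j h => (Prod.mk.inj h).1), card_range]
    rw [h3]
    have h6 : (1 / (K : ℂ)) * K = 1 := by field_simp
    rw [h6]
    ring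
  have h3 : |∫ x, F K (φ q x - u) ∂Q - 1| = ‖((∫ x, F K (φ q x - u) ∂Q - 1 : ℝ) : ℂ)‖ := by
    rw [Complex.norm_real, Real.norm_eq_abs]
  rw [h3, h2, norm_mul]
  have h4 : ‖(1 / (K : ℂ))‖ = 1 / K := by simp
  rw [h4]
  by_cases hne : ((range K ×ˢ range K).filter (fun p => p.1 ≠ p.2)).Nonempty
  · obtain ⟨p0, hp0⟩ := hne
    have hp0' := hp0
    rw [mem_filter, mem_product, mem_range, mem_range] at hp0'
    have hΔ0 : 0 ≤ Δ := (norm_nonneg _).trans (hQ ((p0.1 : ℤ) - p0.2)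
      (by intro h; apply hp0'.2; omega) (by rw [abs_le]; omega))
    have h5 : ‖∑ p ∈ (range K ×ˢ range K).filter (fun p => p.1 ≠ p.2),
        e (-((((p.1 : ℤ) - (p.2 : ℤ) : ℤ) : ℝ) * u)) *
          hat φ Q (((p.1 : ℤ) - (p.2 : ℤ)) • q)‖ ≤
        K * K * Δ := by
      refine (norm_sum_le _ _).trans ?_
      have h6 : ∀ p ∈ (range K ×ˢ range K).filter (fun p => p.1 ≠ p.2),
          ‖e (-((((p.1 : ℤ) - (p.2 : ℤ) : ℤ) : ℝ) * u)) *
            hat φ Q (((p.1 : ℤ) - (p.2 : ℤ)) • q)‖ ≤ Δ := by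
        intro p hp
        rw [mem_filter, mem_product, mem_range, mem_range] at hp
        rw [norm_mul, norm_e, one_mul]
        exact hQ _ (by intro h; apply hp.2; omega) (by rw [abs_le]; omega)
      refine (sum_le_sum h6).trans ?_
      rw [sum_const, nsmul_eq_mul]
      have h7 : (((range K ×ˢ range K).filter (fun p => p.1 ≠ p.2)).card : ℝ) ≤ K * K := by
        have := card_filter_le (range K ×ˢ range K) (fun p => p.1 ≠ p.2)
        rw [card_product, card_range] at this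
        exact_mod_cast this
      gcongr
    calc 1 / (K : ℝ) * _ ≤ 1 / (K : ℝ) * (K * K * Δ) := by gcongr
      _ = K * Δ := by field_simp
  · rw [not_nonempty_iff_eq_empty] at hne
    rw [hne, sum_empty, norm_zero, mul_zero]
    -- `K = 1` here
    by_contra hcon
    have hK1 : K = 1 := by
      by_contra hK1
      have : ((0 : ℕ), (1 : ℕ)) ∈ (range K ×ˢ range K).filter (fun p => p.1 ≠ p.2) := by
        rw [mem_filter, mem_product, mem_range, mem_range]
        exact ⟨⟨hK, by omega⟩, by simp⟩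
      rw [hne] at this
      exact absurd this (Finset.notMem_empty _)
    subst hK1
    have h5 := hQ 1 one_ne_zero (by simp)
    have := norm_nonneg (hat φ Q ((1 : ℤ) • q))
    apply hcon
    push_cast
    linarith

lemma integrable_F (K : ℕ) (P : Measure X) [IsFiniteMeasure P] {f : X → ℝ} (hf : Measurable f)
    (u : ℝ) : Integrable (fun x => F K (f x - u)) P := by
  obtain ⟨c, hc1, hc2⟩ := TP_F (le_refl K) u
  have hc : Measurable (fun x => F K (f x - u)) := (TP_F (le_refl K) u).cont.measurable.comp hf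
  refine Integrable.of_bound (C := K) hc.aestronglyMeasurable (Filter.Eventually.of_forall fun x => ?_)
  rw [Real.norm_eq_abs, abs_of_nonneg (F_nonneg _ _)]
  unfold F
  have h1 : ‖D K (f x - u)‖ ≤ K := by
    unfold D
    refine (norm_sum_le _ _).trans ?_
    simp [norm_e]
  rcases Nat.eq_zero_or_pos K with rfl | hK
  · simp
  · have hKR : (0 : ℝ) < K := by exact_mod_cast hK
    calc 1 / (K : ℝ) * ‖D K (f x - u)‖ ^ 2 ≤ 1 / (K : ℝ) * (K : ℝ) ^ 2 := by gcongr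
      _ = (K : ℝ) := by field_simp

/-- the error of the approximation, for one measure -/
lemma approx_one {k K R : ℕ} (hK : 0 < K) (hR : 0 < R) {φ : Λ →+ (X → ℝ)}
    (hφ : ∀ l, Measurable (φ l)) (P : Measure X) [IsProbabilityMeasure P]
    (q : Fin k → Λ) (u v : Fin k → ℝ) (hu : ∀ i, 0 ≤ u i) (hv : ∀ i, v i ≤ 1) (Δ : ℝ)
    (hP : ∀ i, ∀ h : ℤ, h ≠ 0 → |h| ≤ K → ‖hat φ P (h • q i)‖ ≤ Δ) :
    |∫ x, ∏ i, ind (u i) (v i) (φ (q i) x) ∂P - ∫ x, ∏ i, g R (u i) (v i) (φ (q i) x) ∂P| ≤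
      k * ((K : ℝ) ^ 2 / R + π ^ 2 / (2 * K) * (1 + K * Δ)) := by
  have hKR : (0 : ℝ) < K := by exact_mod_cast hK
  have hi1 : Integrable (fun x => ∏ i, ind (u i) (v i) (φ (q i) x)) P := by
    refine Integrable.of_bound (C := 1) ?_ (Filter.Eventually.of_forall fun x => ?_)
    · refine Measurable.aestronglyMeasurable ?_
      exact Finset.measurable_prod _ fun i _ => (measurable_ind _ _).comp (hφ _)
    · rw [Real.norm_eq_abs, abs_of_nonneg (prod_nonneg fun i _ => ind_nonneg _ _ _)]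
      exact prod_le_one (fun i _ => ind_nonneg _ _ _) fun i _ => ind_le_one _ _ _
  have hi2 : Integrable (fun x => ∏ i, g R (u i) (v i) (φ (q i) x)) P := by
    refine Integrable.of_bound (C := 1) ?_ (Filter.Eventually.of_forall fun x => ?_)
    · refine Measurable.aestronglyMeasurable ?_
      exact Finset.measurable_prod _ fun i _ => (TP_g R (u i) (v i)).cont.measurable.comp (hφ _)
    · rw [Real.norm_eq_abs, abs_of_nonneg (prod_nonneg fun i _ => g_nonneg _ _ _ _)]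
      exact prod_le_one (fun i _ => g_nonneg _ _ _ _) fun i _ => g_le_one hR _ _ _
  have hiF : ∀ i (z : ℝ), Integrable (fun x => F K (φ (q i) x - z)) P :=
    fun i z => integrable_F K P (hφ (q i)) z
  have hiw : ∀ i, Integrable (fun x => w K R (u i) (v i) (φ (q i) x)) P := by
    intro i
    unfold w
    exact (integrable_const _).add (((hiF i (u i)).add (hiF i (v i))).const_mul _)
  rw [← integral_sub hi1 hi2]
  have h1 : |∫ x, (∏ i, ind (u i) (v i) (φ (q i) x) - ∏ i, g R (u i) (v i) (φ (q i) x)) ∂P| ≤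
      ∫ x, ∑ i, w K R (u i) (v i) (φ (q i) x) ∂P := by
    refine (abs_integral_le_integral_abs).trans ?_
    refine integral_mono (hi1.sub hi2).abs (integrable_finsetSum _ fun i _ => hiw i) fun x => ?_
    refine (prod_diff _ _ _ (fun i _ => ind_nonneg _ _ _) (fun i _ => ind_le_one _ _ _)
      (fun i _ => g_nonneg _ _ _ _) (fun i _ => g_le_one hR _ _ _)).trans ?_
    exact sum_le_sum fun i _ => appr hK hR (hu i) (hv i) _
  refine h1.trans ?_
  rw [integral_finsetSum _ fun i _ => hiw i]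
  have h2 : ∀ i ∈ (univ : Finset (Fin k)), ∫ x, w K R (u i) (v i) (φ (q i) x) ∂P ≤
      (K : ℝ) ^ 2 / R + π ^ 2 / (2 * K) * (1 + K * Δ) := by
    intro i _
    have h0 : ∫ x, w K R (u i) (v i) (φ (q i) x) ∂P = (K : ℝ) ^ 2 / R + π ^ 2 / (4 * K) *
        (∫ x, F K (φ (q i) x - u i) ∂P + ∫ x, F K (φ (q i) x - v i) ∂P) := by
      have e1 : ∫ x, w K R (u i) (v i) (φ (q i) x) ∂P = ∫ x, (K : ℝ) ^ 2 / R ∂P +
          ∫ x, π ^ 2 / (4 * K) * (F K (φ (q i) x - u i) + F K (φ (q i) x - v i)) ∂P :=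
        integral_add (integrable_const _) (((hiF i (u i)).add (hiF i (v i))).const_mul _)
      have e2 : ∫ x, (F K (φ (q i) x - u i) + F K (φ (q i) x - v i)) ∂P =
          ∫ x, F K (φ (q i) x - u i) ∂P + ∫ x, F K (φ (q i) x - v i) ∂P :=
        integral_add (hiF i (u i)) (hiF i (v i))
      rw [e1, integral_const_mul, e2, integral_const]
      simp
    rw [h0]
    have h3 := int_F hK hφ P (q i) (u i) Δ (hP i)
    have h4 := int_F hK hφ P (q i) (v i) Δ (hP i)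
    rw [abs_le] at h3 h4
    have h5 : ∫ x, F K (φ (q i) x - u i) ∂P + ∫ x, F K (φ (q i) x - v i) ∂P ≤
        2 * (1 + K * Δ) := by
      linarith [h3.2, h4.2]
    have h6 : π ^ 2 / (4 * K) * (∫ x, F K (φ (q i) x - u i) ∂P +
        ∫ x, F K (φ (q i) x - v i) ∂P) ≤
        π ^ 2 / (4 * K) * (2 * (1 + K * Δ)) := by gcongr
    have h7 : π ^ 2 / (4 * K) * (2 * (1 + K * Δ)) = π ^ 2 / (2 * K) * (1 + K * Δ) := by
      field_simp; ring
    linarith
  refine (sum_le_sum h2).trans ?_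
  rw [sum_const, card_univ, Fintype.card_fin, nsmul_eq_mul]

/-- **Comparison**: `Q` has vanishing Fourier coefficients -/
theorem test {k K : ℕ} (hK : 0 < K) {φ : Λ →+ (X → ℝ)} (hφ : ∀ l, Measurable (φ l))
    (P Q : Measure X) [IsProbabilityMeasure P]
    [IsProbabilityMeasure Q] (hQ : ∀ l : Λ, l ≠ 0 → hat φ Q l = 0)
    (q : Fin k → Λ) (hq : ∀ i, ∀ h : ℤ, h ≠ 0 → h • q i ≠ 0) (Δ : ℝ)
    (hΔ : ∀ h : Fin k → ℤ, (∀ i, |h i| ≤ (K : ℤ) ^ 3) → ∑ i, h i • q i ≠ 0 →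
      ‖hat φ P (∑ i, h i • q i)‖ ≤ Δ) (hΔ0 : 0 ≤ Δ)
    (u v : Fin k → ℝ) (hu : ∀ i, 0 ≤ u i) (hv : ∀ i, v i ≤ 1) :
    |∫ x, ∏ i, ind (u i) (v i) (φ (q i) x) ∂P - ∫ x, ∏ i, ind (u i) (v i) (φ (q i) x) ∂Q| ≤
      (2 * (K : ℝ) ^ 3 + 1) ^ k * Δ + k * (12 / K + 5 * Δ) := by
  classical
  have hKR : (0 : ℝ) < K := by exact_mod_cast hK
  have hR : 0 < K ^ 3 := by positivity
  have hP1 : ∀ i, ∀ h : ℤ, h ≠ 0 → |h| ≤ K → ‖hat φ P (h • q i)‖ ≤ Δ := by
    intro i h hh hhK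
    have h1 : ∑ j, (if j = i then h else 0) • q j = h • q i := by
      rw [sum_eq_single i]
      · rw [if_pos rfl]
      · intro j _ hj
        rw [if_neg hj, zero_smul]
      · intro hi
        exact absurd (mem_univ i) hi
    rw [← h1]
    refine hΔ _ (fun j => ?_) ?_
    · have hK1 : (K : ℤ) ≤ (K : ℤ) ^ 3 := by
        have : (1 : ℤ) ≤ K := by exact_mod_cast hK
        calc (K : ℤ) = K ^ 1 := (pow_one _).symm
          _ ≤ (K : ℤ) ^ 3 := pow_le_pow_right₀ this (by norm_num)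
      by_cases hj : j = i
      · rw [if_pos hj]; exact hhK.trans hK1
      · rw [if_neg hj, abs_zero]; positivity
    · rw [h1]; exact hq i h hh
  have a1 := approx_one hK hR hφ P q u v hu hv Δ hP1
  have a2 := approx_one hK hR hφ Q q u v hu hv 0 (fun i h hh _ => by
    rw [hQ _ (hq i h hh), norm_zero])
  have a3 := diff_tp hφ P Q (fun i => g (K ^ 3) (u i) (v i)) (fun i => TP_g (K ^ 3) (u i) (v i)) q Δ
    (by
      intro h hh
      by_cases h0 : ∑ i, h i • q i = 0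
      · rw [h0, hat_zero, hat_zero, sub_self, norm_zero]
        exact hΔ0
      · rw [hQ _ h0, sub_zero]
        exact hΔ h (fun i => by have := hh i; push_cast at this; exact this) h0)
  have hpi : π ^ 2 ≤ 10 := by
    have := pi_lt_d2
    nlinarith [pi_pos]
  have b1 : ((K : ℝ) ^ 2 / ((K ^ 3 : ℕ) : ℝ)) = 1 / K := by
    push_cast
    field_simp
  rw [b1] at a1 a2
  have b2 : π ^ 2 / (2 * K) * (1 + K * Δ) ≤ 5 / K + 5 * Δ := by
    have : π ^ 2 / (2 * K) * (1 + K * Δ) = π ^ 2 / 2 * (1 / K) + π ^ 2 / 2 * Δ := by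
      field_simp
    rw [this]
    have c1 : π ^ 2 / 2 * (1 / K) ≤ 5 * (1 / K) := by gcongr; linarith
    have c2 : π ^ 2 / 2 * Δ ≤ 5 * Δ := by gcongr; linarith
    calc π ^ 2 / 2 * (1 / K) + π ^ 2 / 2 * Δ ≤ 5 * (1 / K) + 5 * Δ := add_le_add c1 c2
      _ = 5 / K + 5 * Δ := by ring
  have b3 : π ^ 2 / (2 * K) * (1 + K * 0) ≤ 5 / K := by
    have : π ^ 2 / (2 * K) * (1 + K * 0) = π ^ 2 / 2 * (1 / K) := by field_simp; ring
    rw [this]
    have c1 : π ^ 2 / 2 * (1 / K) ≤ 5 * (1 / K) := by gcongr; linarith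
    calc π ^ 2 / 2 * (1 / K) ≤ 5 * (1 / K) := c1
      _ = 5 / K := by ring
  have hk : (0 : ℝ) ≤ k := Nat.cast_nonneg k
  have c1 : (k : ℝ) * (1 / K + π ^ 2 / (2 * K) * (1 + K * Δ)) ≤ k * (6 / K + 5 * Δ) := by
    refine mul_le_mul_of_nonneg_left ?_ hk
    calc 1 / (K : ℝ) + π ^ 2 / (2 * K) * (1 + K * Δ) ≤ 1 / K + (5 / K + 5 * Δ) := by gcongr
      _ = 6 / K + 5 * Δ := by ring
  have c2 : (k : ℝ) * (1 / K + π ^ 2 / (2 * K) * (1 + K * 0)) ≤ k * (6 / K) := by
    refine mul_le_mul_of_nonneg_left ?_ hk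
    calc 1 / (K : ℝ) + π ^ 2 / (2 * K) * (1 + K * 0) ≤ 1 / K + 5 / K := by gcongr
      _ = 6 / K := by ring
  have c3 : ((2 * ((K ^ 3 : ℕ) : ℝ) + 1) ^ k) = (2 * (K : ℝ) ^ 3 + 1) ^ k := by push_cast; rfl
  rw [c3] at a3
  have e4 : (k : ℝ) * (12 / K + 5 * Δ) = k * (6 / K + 5 * Δ) + k * (6 / K) := by ring
  rw [abs_le] at a1 a2 a3 ⊢
  constructor <;> linarith [a1.1, a1.2, a2.1, a2.2, a3.1, a3.2]

end Pool.Agent.Y951.TU
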